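import Pool.Agent.H166.SPD.Main

/-!
The decomposition theorem.
-/

set_option autoImplicit false

namespace Pool.Agent.H166.SPD

open Finset
open scoped Pointwise

/-- the existence of an exponent -/
theorem exists_beta (k : ℕ) (hk : 2 ≤ k) :
    ∃ β : ℝ, 0 ≤ β ∧ Pool.Agent.Y849.LW.Cond k 2 β := by
  have hkr : (2 : ℝ) ≤ k := by exact_mod_cast hk
  set x : ℝ := ((2 : ℕ) : ℝ) - (((2 : ℕ) : ℝ) - 1) / (2 * k - 1) with hx
  have hx1 : 1 < x := by
    rw [hx]
    push_cast
    have h1 : (2 - 1 : ℝ) / (2 * k - 1) ≤ 1 / 3 := by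
      rw [div_le_div_iff₀ (by linarith) (by norm_num)]
      linarith
    linarith
  obtain ⟨n, hn⟩ := pow_unbounded_of_one_lt (2 * (k : ℝ) - 1) hx1
  refine ⟨n, Nat.cast_nonneg _, ?_⟩
  unfold Pool.Agent.Y849.LW.Cond
  rw [← hx, Real.rpow_natCast]
  exact hn.le

theorem AddW_eq (k : ℕ) (S : Finset ℤ) (c : ℤ → ℝ) : AddW k S c = WE k S (fun a => a) c := rfl

theorem MulW_le (k : ℕ) (S : Finset ℤ) (l : ℤ → ℤ) (c : ℤ → ℝ) (hc : ∀ a, 0 ≤ c a)
    (hl : ∀ x y : Fin k → ℤ, (∀ i, x i ∈ S) → (∀ i, y i ∈ S) →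
      (∑ i, l (x i) = ∑ i, l (y i) ↔ |∏ i, x i| = |∏ i, y i|)) :
    MulW k S c ≤ WE k S l c := by
  unfold MulW WE
  refine Finset.sum_le_sum fun x hx => Finset.sum_le_sum fun y hy => ?_
  rw [Fintype.mem_piFinset] at hx hy
  have h := hl x y hx hy
  by_cases h1 : ∏ i, x i = ∏ i, y i
  · rw [if_pos h1, if_pos (h.2 (by rw [h1]))]
  · rw [if_neg h1]
    split_ifs
    · exact mul_nonneg (Finset.prod_nonneg fun i _ => hc _) (Finset.prod_nonneg fun i _ => hc _)
    · exact le_rfl

theorem WE_empty {H : Type*} [AddCommMonoid H] [DecidableEq H] (k : ℕ) (hk : 1 ≤ k) (v : ℤ → H)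
    (c : ℤ → ℝ) : WE k (∅ : Finset ℤ) v c = 0 := by
  unfold WE
  have : (Fintype.piFinset fun _ : Fin k => (∅ : Finset ℤ)) = ∅ := by
    rw [Finset.eq_empty_iff_forall_notMem]
    intro f hf
    exact absurd (Fintype.mem_piFinset.1 hf ⟨0, hk⟩) (Finset.notMem_empty _)
  rw [this]
  simp

/-- the trivial bound -/
theorem WE_trivial {H : Type*} [AddCommMonoid H] [DecidableEq H] (k : ℕ) (S : Finset ℤ)
    (v : ℤ → H) (c : ℤ → ℝ) : WE k S v c ≤ ((S.card : ℝ) * ∑ a ∈ S, c a ^ 2) ^ k := by
  rw [mul_pow]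
  apply WE_pointwise
  intro y _
  have h1 := Finset.card_filter_le (Fintype.piFinset fun _ : Fin k => S)
    (fun x => ∑ i, v (x i) = ∑ i, v (y i))
  rw [Fintype.card_piFinset] at h1
  simp only [Finset.prod_const, Finset.card_univ, Fintype.card_fin] at h1
  exact_mod_cast h1

theorem MulW_trivial (k : ℕ) (S : Finset ℤ) (hS : ∀ a ∈ S, a ≠ 0) (c : ℤ → ℝ)
    (hc : ∀ a, 0 ≤ c a) : MulW k S c ≤ ((S.card : ℝ) * ∑ a ∈ S, c a ^ 2) ^ k := by
  obtain ⟨l, hl⟩ := exists_log_abs S hS k
  exact (MulW_le k S l c hc hl).trans (WE_trivial k S l c)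

/-- the number of the classes in a decomposition -/
theorem card_bound (k : ℕ) (hk : 1 ≤ k) (x y : ℝ) (hx0 : 0 ≤ x) (hy : 1 ≤ y) (h : x ≤ y) :
    x ^ (2 * k - 1) ≤ (y ^ 2) ^ k := by
  rw [← pow_mul]
  exact (pow_le_pow_left₀ hx0 h _).trans (pow_le_pow_right₀ hy (by omega))

/-- the multiplicative piece, with its constant -/
theorem Tc_le {β K z : ℝ} (hβ : 0 ≤ β) (hK : 1 ≤ K) (hK2 : K ≤ Real.exp (2 * z)) :
    Tc (2 ^ 22 * K ^ 10) β ≤ (2 ^ 23 * (2 ^ 45) ^ β) * Real.exp ((20 + 40 * β) * z) := by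
  have h10 : K ^ 10 ≤ Real.exp (20 * z) := by
    calc K ^ 10 ≤ Real.exp (2 * z) ^ 10 := pow_le_pow_left₀ (by linarith) hK2 10
      _ = Real.exp (20 * z) := by rw [← Real.exp_nat_mul]; congr 1; push_cast; ring
  have h20 : K ^ 20 ≤ Real.exp (40 * z) := by
    calc K ^ 20 ≤ Real.exp (2 * z) ^ 20 := pow_le_pow_left₀ (by linarith) hK2 20
      _ = Real.exp (40 * z) := by rw [← Real.exp_nat_mul]; congr 1; push_cast; ring
  have hK0 : 0 ≤ K := by linarith
  have h1 : (2 * (2 ^ 22 * K ^ 10) ^ 2) ^ β ≤ ((2:ℝ) ^ 45 * Real.exp (40 * z)) ^ β := by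
    apply Real.rpow_le_rpow (by positivity) _ hβ
    calc 2 * (2 ^ 22 * K ^ 10) ^ 2 = 2 ^ 45 * K ^ 20 := by ring
      _ ≤ 2 ^ 45 * Real.exp (40 * z) := mul_le_mul_of_nonneg_left h20 (by positivity)
  have h2 : ((2:ℝ) ^ 45 * Real.exp (40 * z)) ^ β = (2 ^ 45) ^ β * Real.exp (40 * β * z) := by
    rw [Real.mul_rpow (by positivity) (Real.exp_pos _).le, ← Real.exp_mul]
    congr 2
    ring
  unfold Tc
  calc 2 * (2 ^ 22 * K ^ 10) * (2 * (2 ^ 22 * K ^ 10) ^ 2) ^ β
      ≤ (2 ^ 23 * Real.exp (20 * z)) * ((2 ^ 45) ^ β * Real.exp (40 * β * z)) := by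
        rw [← h2]
        refine mul_le_mul ?_ h1 (by positivity) (by positivity)
        calc 2 * (2 ^ 22 * K ^ 10) = 2 ^ 23 * K ^ 10 := by ring
          _ ≤ 2 ^ 23 * Real.exp (20 * z) := mul_le_mul_of_nonneg_left h10 (by positivity)
    _ = (2 ^ 23 * (2 ^ 45) ^ β) * (Real.exp (20 * z) * Real.exp (40 * β * z)) := by ring
    _ = _ := by rw [← Real.exp_add]; congr 2; ring

/-- Every finite set of integers is a disjoint union of a set that grows in all models, a set with
few multiplicative coincidences and a set with few additive coincidences. -/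
theorem decomp (k : ℕ) (hk : 2 ≤ k) (ε b : ℝ) (hε : 0 < ε) (hb : 0 < b) :
    ∃ M : ℕ, 1 ≤ M ∧ ∃ K : ℝ, 0 < K ∧ ∀ A : Finset ℤ,
      ∃ B C D : Finset ℤ, B ∪ C ∪ D = A ∧ Disjoint B C ∧ Disjoint B D ∧ Disjoint C D ∧
        0 ∉ B ∧ 0 ∉ C ∧
        (∀ m : ℕ, M ≤ m → Grows k m ((A.card : ℝ) ^ (2 * (m : ℝ) - b)) B) ∧
        (∀ c : ℤ → ℝ, (∀ a, 0 ≤ c a) →
          MulW k C c ≤ (K * (A.card : ℝ) ^ ε * ∑ a ∈ C, c a ^ 2) ^ k) ∧
        (∀ c : ℤ → ℝ, (∀ a, 0 ≤ c a) →
          AddW k D c ≤ (K * (A.card : ℝ) ^ ε * ∑ a ∈ D, c a ^ 2) ^ k) := by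
  classical
  have hk1 : 1 ≤ k := by omega
  obtain ⟨C₀, hC₀, hdiv⟩ := Pool.Agent.Y359.DB.divisor_bound k
  obtain ⟨β, hβ0, hβ⟩ := exists_beta k hk
  -- the exponent of the divisor bound
  set e : ℝ := min 1 (ε / (6 * b)) with he
  have he0 : 0 < e := lt_min one_pos (by positivity)
  have he1 : e ≤ 1 := min_le_left _ _
  have heb : e * (3 * b) ≤ ε / 2 := by
    have h1 : e ≤ ε / (6 * b) := min_le_right _ _
    calc e * (3 * b) ≤ ε / (6 * b) * (3 * b) := mul_le_mul_of_nonneg_right h1 (by positivity)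
      _ = ε / 2 := by field_simp; ring
  set E : ℝ := Real.exp (C₀ / e) with hE
  have hE1 : 1 ≤ E := Real.one_le_exp (by positivity)
  -- the number of scales
  obtain ⟨J, hJ1, hJη⟩ : ∃ J : ℕ, 1 ≤ J ∧ b / J * (33 * E + 12 + 20 + 40 * β) ≤ ε / 2 := by
    obtain ⟨J, hJ⟩ := exists_nat_gt (b * (33 * E + 12 + 20 + 40 * β) / (ε / 2))
    have hpos : 0 < b * (33 * E + 12 + 20 + 40 * β) / (ε / 2) := by positivity
    have hJ0 : (0 : ℝ) < J := hpos.trans hJ
    have hJ1 : 1 ≤ J := by
      have : 0 < J := by exact_mod_cast hJ0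
      omega
    refine ⟨J, hJ1, ?_⟩
    rw [div_lt_iff₀ (by positivity)] at hJ
    rw [div_mul_eq_mul_div, div_le_iff₀ hJ0]
    linarith
  set η : ℝ := b / J with hη
  have hJr : (1 : ℝ) ≤ J := by exact_mod_cast hJ1
  have hη0 : 0 < η := by positivity
  have hηb : η ≤ b := by
    rw [hη, div_le_iff₀ (by linarith)]
    nlinarith
  have hηE : 0 ≤ η * E := by positivity
  have hηβ : 0 ≤ η * β := by positivity
  have hη1 : 33 * (η * E) + 32 * η + 40 * (η * β) ≤ ε / 2 := by
    refine le_trans (le_of_eq ?_) hJη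
    ring
  obtain ⟨t₀, ht₀, hpar⟩ := exists_par b hb J hJ1
  set K₀ : ℝ := 4 * max (Real.exp t₀) (2 ^ 23 * (2 ^ 45) ^ β) with hK₀
  have hmx : 1 ≤ max (Real.exp t₀) (2 ^ 23 * (2 ^ 45) ^ β) :=
    (Real.one_le_exp (by linarith)).trans (le_max_left _ _)
  have hK₀4 : 4 ≤ K₀ := by rw [hK₀]; linarith
  have hK₀e : Real.exp t₀ ≤ K₀ := by
    have h1 := le_max_left (Real.exp t₀) (2 ^ 23 * (2 ^ 45) ^ β)
    rw [hK₀]; linarith
  refine ⟨2 ^ J, Nat.one_le_two_pow, K₀, by linarith, ?_⟩
  intro A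
  set n : ℕ := A.card with hn
  set A₀ : Finset ℤ := A.erase 0 with hA₀
  set Z : Finset ℤ := A.filter fun a => a = 0 with hZ
  have hA₀A : A₀ ⊆ A := Finset.erase_subset _ _
  have hA₀n : A₀.card ≤ n := Finset.card_le_card hA₀A
  have hA₀0 : ∀ a ∈ A₀, a ≠ 0 := fun a ha => (Finset.mem_erase.1 ha).1
  have hZA : A₀ ∪ Z = A := by
    ext a
    simp only [hA₀, hZ, mem_union, mem_erase, mem_filter]
    tauto
  have hZ1 : Z.card ≤ 1 := by
    rw [Finset.card_le_one]
    intro a ha a' ha'
    rw [(mem_filter.1 ha).2, (mem_filter.1 ha').2]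
  have hZdis : Disjoint A₀ Z := by
    rw [Finset.disjoint_left]
    intro a ha ha'
    exact hA₀0 a ha (mem_filter.1 ha').2
  have hZpiece : ∀ S' ⊆ Z, ∀ c : ℤ → ℝ,
      WE k S' (fun a => a) c ≤ (1 * ∑ a ∈ S', c a ^ 2) ^ k := by
    intro S' hS' c
    refine (WE_trivial k S' (fun a => a) c).trans ?_
    have h0 : 0 ≤ ∑ a ∈ S', c a ^ 2 := Finset.sum_nonneg fun a _ => sq_nonneg _
    apply pow_le_pow_left₀ (by positivity)
    refine mul_le_mul_of_nonneg_right ?_ h0
    exact_mod_cast (Finset.card_le_card hS').trans hZ1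
  rcases lt_or_ge (Real.log n) t₀ with hsmall | hlarge
  · -- a small set
    have hnK : (n : ℝ) ≤ K₀ * (n : ℝ) ^ ε := by
      rcases Nat.eq_zero_or_pos n with h0 | h0
      · rw [h0]
        push_cast
        positivity
      have cn : (1 : ℝ) ≤ n := by exact_mod_cast h0
      have h1 : (n : ℝ) ≤ Real.exp t₀ := by
        rw [← Real.log_le_iff_le_exp (by linarith)]
        exact hsmall.le
      have h2 : (1 : ℝ) ≤ (n : ℝ) ^ ε := Real.one_le_rpow cn hε.le
      calc (n : ℝ) ≤ K₀ := h1.trans hK₀e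
        _ ≤ K₀ * (n : ℝ) ^ ε := le_mul_of_one_le_right (by linarith) h2
    refine ⟨∅, A₀, Z, by rw [Finset.empty_union, hZA], Finset.disjoint_empty_left _,
      Finset.disjoint_empty_left _, hZdis, Finset.notMem_empty _,
      fun h => hA₀0 0 h rfl, ?_, ?_, ?_⟩
    · intro m hm
      apply grows_empty
      · exact Nat.one_le_two_pow.trans hm
      · positivity
    · intro c hc
      refine (MulW_trivial k A₀ hA₀0 c hc).trans ?_
      have hs0 : 0 ≤ ∑ a ∈ A₀, c a ^ 2 := Finset.sum_nonneg fun a _ => sq_nonneg _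
      apply pow_le_pow_left₀ (by positivity)
      refine mul_le_mul_of_nonneg_right (le_trans ?_ hnK) hs0
      exact_mod_cast hA₀n
    · intro c _
      rw [AddW_eq]
      refine (WE_trivial k Z _ c).trans ?_
      have hs0 : 0 ≤ ∑ a ∈ Z, c a ^ 2 := Finset.sum_nonneg fun a _ => sq_nonneg _
      apply pow_le_pow_left₀ (by positivity)
      refine mul_le_mul_of_nonneg_right (le_trans ?_ hnK) hs0
      exact_mod_cast Finset.card_le_card (Finset.filter_subset _ _)
  · -- a large set
    obtain ⟨K, s, hp⟩ := hpar n hlarge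
    set ℓ : ℝ := Real.log n with hℓ
    have hℓ1 : 1 ≤ ℓ := hp.log1
    have hn0 : 0 < n := by
      rcases Nat.eq_zero_or_pos n with h | h
      · rw [hℓ, h] at hℓ1
        simp at hℓ1
        linarith
      · exact h
    have cn : (1 : ℝ) ≤ n := by exact_mod_cast hn0
    have hpow : ∀ x : ℝ, (n : ℝ) ^ x = Real.exp (x * ℓ) := fun x => by
      rw [Real.rpow_def_of_pos (by linarith)]; congr 1; ring
    set p : ℝ := K * Real.exp (b * ℓ) with hpp
    obtain ⟨B, hBA, hBG, 𝒟, h𝒟, hcov, hcard⟩ := iterate A₀ (fun D => QA k K p D ∨ QM k K p D)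
      (Grows k (2 ^ J) ((n : ℝ) ^ (2 * ((2 ^ J : ℕ) : ℝ) - b))) s hp.s0
      (fun B hB hF => step hp k B ((Finset.card_le_card hB).trans hA₀n) hF) A₀.card A₀
      (Finset.Subset.refl _) rfl
    set C : Finset ℤ := (A₀ \ B).filter fun a => ∃ D ∈ 𝒟, QA k K p D ∧ a ∈ D with hC
    set D₁ : Finset ℤ := (A₀ \ B).filter fun a => ¬ ∃ D ∈ 𝒟, QA k K p D ∧ a ∈ D with hD₁
    have hCD : C ∪ D₁ = A₀ \ B := Finset.filter_union_filter_not_eq _ _
    have hCA : C ⊆ A₀ := (Finset.filter_subset _ _).trans Finset.sdiff_subset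
    have hDA : D₁ ⊆ A₀ := (Finset.filter_subset _ _).trans Finset.sdiff_subset
    have hK1 := hp.K1
    have hK2 : K ≤ Real.exp (2 * η * ℓ) := hp.K2
    have hcount : (𝒟.card : ℝ) ≤ Real.exp (6 * η * ℓ) := by
      apply hp.count
      refine hcard.trans ?_
      exact_mod_cast hA₀n
    have hcount2 : ∀ x : ℝ, 0 ≤ x → x ≤ 2 * Real.exp (6 * η * ℓ) →
        x ^ (2 * k - 1) ≤ (4 * Real.exp (12 * η * ℓ)) ^ k := by
      intro x hx0 hx
      have h0 : 1 ≤ Real.exp (6 * η * ℓ) := Real.one_le_exp (by positivity)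
      have h2 := card_bound k hk1 x (2 * Real.exp (6 * η * ℓ)) hx0 (by linarith) hx
      refine h2.trans (le_of_eq ?_)
      congr 1
      rw [mul_pow, ← Real.exp_nat_mul]
      congr 1
      · norm_num
      · congr 1
        push_cast
        ring
    refine ⟨B, C, D₁ ∪ Z, ?_, ?_, ?_, ?_, ?_, ?_, ?_, ?_, ?_⟩
    · rw [← Finset.union_assoc, Finset.union_assoc B, hCD, Finset.union_sdiff_of_subset hBA, hZA]
    · exact Finset.disjoint_sdiff.mono_right (Finset.filter_subset _ _)
    · rw [Finset.disjoint_union_right]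
      exact ⟨Finset.disjoint_sdiff.mono_right (Finset.filter_subset _ _), hZdis.mono_left hBA⟩
    · rw [Finset.disjoint_union_right]
      exact ⟨Finset.disjoint_filter_filter_not _ _ _, hZdis.mono_left hCA⟩
    · exact fun h => hA₀0 0 (hBA h) rfl
    · exact fun h => hA₀0 0 (hCA h) rfl
    · intro m hm
      exact grows_up k n (2 ^ J) m b B hn0 hm ((Finset.card_le_card hBA).trans hA₀n) hBG
    · -- the multiplicative part
      intro c hc
      obtain ⟨l, hl⟩ := exists_log_abs C (fun a ha => hA₀0 a (hCA ha)) k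
      refine (MulW_le k C l c hc hl).trans ?_
      set Y : ℝ := Real.exp (e * (3 * b * ℓ) + E * (η * ℓ + 20 * η * ℓ)) with hY
      have hY0 : 0 < Y := Real.exp_pos _
      have hun := WE_union k hk1 C (𝒟.filter fun D => QA k K p D) id
        (fun a ha => by
          obtain ⟨-, D', hD', hQ, haD⟩ := mem_filter.1 ha
          exact ⟨D', mem_filter.2 ⟨hD', hQ⟩, haD⟩) l c (2 * Y) (by linarith)
        (by
          intro D' hD' S' hS'C hS'D
          obtain ⟨-, φ, D₀, hinj, hhom, h0, hin, hpiece⟩ := mem_filter.1 hD'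
          have hS'D' : ∀ a ∈ S', a ∈ D' := fun a ha => hS'D ha
          rw [mul_pow]
          apply WE_pointwise
          intro y hy
          have h1 : ∀ y : Fin k → ℤ, (∀ i, y i ∈ S') →
              (((Fintype.piFinset fun _ : Fin k => S').filter
                fun x => ∏ i, x i = ∏ i, y i).card : ℝ) ≤ Y ^ k := fun y hy =>
            add_piece hC₀ hdiv hb hη0 hηb hℓ1 hK1 hK2 hp.big he0 he1 D₀ hpiece S' φ
            (hinj.mono (by exact_mod_cast hS'D))
            (fun x y hx hy => hhom x y (fun i => hS'D' _ (hx i)) (fun i => hS'D' _ (hy i)))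
            (fun a ha => h0 a (hS'D' a ha)) (fun a ha => hin a (hS'D' a ha)) y hy
          set T := Fintype.piFinset fun _ : Fin k => S' with hT
          have h2 : T.filter (fun x => ∑ i, l (x i) = ∑ i, l (y i)) ⊆
              (T.filter fun x => ∏ i, x i = ∏ i, y i) ∪
              (T.filter fun x => ∏ i, x i = -∏ i, y i) := by
            intro x hx
            obtain ⟨h3, h4⟩ := mem_filter.1 hx
            have h5 := (hl x y (fun i => hS'C (Fintype.mem_piFinset.1 h3 i))
              (fun i => hS'C (hy i))).1 h4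
            rcases abs_eq_abs.1 h5 with h6 | h6
            · exact mem_union_left _ (mem_filter.2 ⟨h3, h6⟩)
            · exact mem_union_right _ (mem_filter.2 ⟨h3, h6⟩)
          have h3 : ((T.filter fun x => ∏ i, x i = -∏ i, y i).card : ℝ) ≤ Y ^ k := by
            rcases (T.filter fun x => ∏ i, x i = -∏ i, y i).eq_empty_or_nonempty with h4 | ⟨z, hz⟩
            · rw [h4]
              simp only [Finset.card_empty, Nat.cast_zero]
              positivity
            · obtain ⟨hz1, hz2⟩ := mem_filter.1 hz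
              have h5 := h1 z (Fintype.mem_piFinset.1 hz1)
              rw [hz2] at h5
              exact h5
          have h4 : ((T.filter (fun x => ∑ i, l (x i) = ∑ i, l (y i))).card : ℝ) ≤
              ((T.filter fun x => ∏ i, x i = ∏ i, y i).card : ℝ) +
              ((T.filter fun x => ∏ i, x i = -∏ i, y i).card : ℝ) := by
            exact_mod_cast (Finset.card_le_card h2).trans (Finset.card_union_le _ _)
          have h5 : (2 : ℝ) ≤ 2 ^ k := by
            calc (2 : ℝ) = 2 ^ 1 := by norm_num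
              _ ≤ 2 ^ k := pow_le_pow_right₀ (by norm_num) hk1
          calc _ ≤ Y ^ k + Y ^ k := h4.trans (add_le_add (h1 y hy) h3)
            _ = 2 * Y ^ k := by ring
            _ ≤ 2 ^ k * Y ^ k := mul_le_mul_of_nonneg_right h5 (by positivity)
            _ = (2 * Y) ^ k := by rw [mul_pow])
      refine hun.trans ?_
      have hs0 : 0 ≤ ∑ a ∈ C, c a ^ 2 := Finset.sum_nonneg fun a _ => sq_nonneg _
      -- the number of the pieces without the factor two
      have hXc : ((𝒟.filter fun D => QA k K p D).card : ℝ) ^ (2 * k - 1) ≤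
          Real.exp (12 * η * ℓ) ^ k := by
        have h1 : ((𝒟.filter fun D => QA k K p D).card : ℝ) ≤ Real.exp (6 * η * ℓ) := by
          refine le_trans ?_ hcount
          exact_mod_cast Finset.card_le_card (Finset.filter_subset _ _)
        have h2 := card_bound k hk1 _ (Real.exp (6 * η * ℓ)) (Nat.cast_nonneg _)
          (Real.one_le_exp (by positivity)) h1
        refine h2.trans (le_of_eq ?_)
        congr 1
        rw [← Real.exp_nat_mul]
        congr 1
        push_cast
        ring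
      calc _ ≤ Real.exp (12 * η * ℓ) ^ k * (2 * Y * ∑ a ∈ C, c a ^ 2) ^ k :=
            mul_le_mul_of_nonneg_right hXc (by positivity)
        _ = (2 * (Real.exp (12 * η * ℓ) * Y) * ∑ a ∈ C, c a ^ 2) ^ k := by
            rw [← mul_pow]; congr 1; ring
        _ ≤ (K₀ * (n : ℝ) ^ ε * ∑ a ∈ C, c a ^ 2) ^ k := by
            apply pow_le_pow_left₀ (by positivity)
            refine mul_le_mul_of_nonneg_right ?_ hs0
            have h1 : Real.exp (12 * η * ℓ) * Y ≤ Real.exp (ε * ℓ) := by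
              rw [hY, ← Real.exp_add]
              apply Real.exp_le_exp.2
              have h2 : (12 * η + e * (3 * b) + E * (21 * η)) * ℓ ≤ ε * ℓ := by
                apply mul_le_mul_of_nonneg_right _ (by linarith)
                nlinarith
              refine le_trans (le_of_eq ?_) h2
              ring
            rw [hpow]
            calc 2 * (Real.exp (12 * η * ℓ) * Y) ≤ 2 * Real.exp (ε * ℓ) := by linarith
              _ ≤ K₀ * Real.exp (ε * ℓ) :=
                  mul_le_mul_of_nonneg_right (by linarith) (Real.exp_pos _).le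
    · -- the additive part
      intro c hc
      rw [AddW_eq]
      set L : ℝ := max 1 (Tc (2 ^ 22 * K ^ 10) β) with hL
      have hL1 : 1 ≤ L := le_max_left _ _
      have hL0 : 0 ≤ L := by linarith
      have hun := WE_union k hk1 (D₁ ∪ Z) (insert Z (𝒟.filter fun D => QM k K p D)) id
        (fun a ha => by
          rcases mem_union.1 ha with ha | ha
          · obtain ⟨ha1, ha2⟩ := mem_filter.1 ha
            obtain ⟨D', hD', haD⟩ := mem_biUnion.1 (hcov ha1)
            rcases h𝒟 D' hD' with hQ | hQ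
            · exact absurd ⟨D', hD', hQ, haD⟩ ha2
            · exact ⟨D', mem_insert_of_mem (mem_filter.2 ⟨hD', hQ⟩), haD⟩
          · exact ⟨Z, mem_insert_self _ _, ha⟩) (fun a => a) c L hL0
        (by
          intro D' hD' S' _ hS'D
          have hs' : 0 ≤ ∑ a ∈ S', c a ^ 2 := Finset.sum_nonneg fun a _ => sq_nonneg _
          rcases mem_insert.1 hD' with rfl | hD'
          · refine (hZpiece S' hS'D c).trans ?_
            exact pow_le_pow_left₀ (by positivity) (mul_le_mul_of_nonneg_right hL1 hs') _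
          obtain ⟨-, ψ, D₀, hinj, hhom, h0, hin, hpiece⟩ := mem_filter.1 hD'
          have hS'D' : ∀ a ∈ S', a ∈ D' := fun a ha => hS'D ha
          refine (mul_piece_WE hk hβ hK1 D₀ hpiece S' ψ
            (hinj.mono (by exact_mod_cast hS'D))
            (fun x y hx hy => hhom x y (fun i => hS'D' _ (hx i)) (fun i => hS'D' _ (hy i)))
            (fun a ha => h0 a (hS'D' a ha)) (fun a ha => hin a (hS'D' a ha)) c hc).trans ?_
          have hT0 : 0 ≤ Tc (2 ^ 22 * K ^ 10) β := by unfold Tc; positivity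
          exact pow_le_pow_left₀ (by positivity)
            (mul_le_mul_of_nonneg_right (le_max_right _ _) hs') _)
      refine hun.trans ?_
      have hs0 : 0 ≤ ∑ a ∈ D₁ ∪ Z, c a ^ 2 := Finset.sum_nonneg fun a _ => sq_nonneg _
      have hXc : (((insert Z (𝒟.filter fun D => QM k K p D)).card : ℕ) : ℝ) ^ (2 * k - 1) ≤
          (4 * Real.exp (12 * η * ℓ)) ^ k := by
        apply hcount2 _ (Nat.cast_nonneg _)
        have h1 : ((insert Z (𝒟.filter fun D => QM k K p D)).card : ℝ) ≤ 𝒟.card + 1 := by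
          have h2 := Finset.card_insert_le Z (𝒟.filter fun D => QM k K p D)
          have h3 := Finset.card_le_card (Finset.filter_subset (fun D => QM k K p D) 𝒟)
          exact_mod_cast h2.trans (Nat.add_le_add_right h3 1)
        have h2 : 1 ≤ Real.exp (6 * η * ℓ) := Real.one_le_exp (by positivity)
        linarith
      calc _ ≤ (4 * Real.exp (12 * η * ℓ)) ^ k * (L * ∑ a ∈ D₁ ∪ Z, c a ^ 2) ^ k :=
            mul_le_mul_of_nonneg_right hXc (by positivity)
        _ = (4 * (Real.exp (12 * η * ℓ) * L) * ∑ a ∈ D₁ ∪ Z, c a ^ 2) ^ k := by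
            rw [← mul_pow]; congr 1; ring
        _ ≤ (K₀ * (n : ℝ) ^ ε * ∑ a ∈ D₁ ∪ Z, c a ^ 2) ^ k := by
            apply pow_le_pow_left₀ (by positivity)
            refine mul_le_mul_of_nonneg_right ?_ hs0
            have h1 : L ≤ max (Real.exp t₀) (2 ^ 23 * (2 ^ 45) ^ β) *
                Real.exp ((20 + 40 * β) * (η * ℓ)) := by
              apply max_le
              · exact one_le_mul_of_one_le_of_one_le hmx (Real.one_le_exp (by positivity))
              · refine (Tc_le hβ0 hK1 (by rw [← mul_assoc]; exact hK2)).trans ?_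
                exact mul_le_mul_of_nonneg_right (le_max_right _ _) (Real.exp_pos _).le
            rw [hpow]
            calc 4 * (Real.exp (12 * η * ℓ) * L)
                ≤ 4 * (Real.exp (12 * η * ℓ) * (max (Real.exp t₀) (2 ^ 23 * (2 ^ 45) ^ β) *
                    Real.exp ((20 + 40 * β) * (η * ℓ)))) := by
                  refine mul_le_mul_of_nonneg_left ?_ (by norm_num)
                  exact mul_le_mul_of_nonneg_left h1 (Real.exp_pos _).le
              _ = K₀ * (Real.exp (12 * η * ℓ) *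
                  Real.exp ((20 + 40 * β) * (η * ℓ))) := by rw [hK₀]; ring
              _ ≤ K₀ * Real.exp (ε * ℓ) := by
                  refine mul_le_mul_of_nonneg_left ?_ (by linarith)
                  rw [← Real.exp_add]
                  apply Real.exp_le_exp.2
                  have h2 : (12 * η + (20 + 40 * β) * η) * ℓ ≤ ε * ℓ := by
                    apply mul_le_mul_of_nonneg_right _ (by linarith)
                    nlinarith
                  refine le_trans (le_of_eq ?_) h2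
                  ring

end Pool.Agent.H166.SPD
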