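import Mathlib

/-!
Definitions: additive and multiplicative coincidences of tuples, and growth in all Freiman models.
-/

set_option autoImplicit false

namespace Pool.Agent.H166.SPD

open Finset
open scoped Pointwise

/-- the additive energy of order `m`: the number of the pairs of `m`-tuples of elements of `S` with
the same sum -/
def AddEn (m : ℕ) (S : Finset ℤ) : ℕ :=
  (((Fintype.piFinset fun _ : Fin m => S) ×ˢ (Fintype.piFinset fun _ : Fin m => S)).filter
    fun p => ∑ i, p.1 i = ∑ i, p.2 i).card

/-- the multiplicative energy of order `m`: the number of the pairs of `m`-tuples of nonzero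
elements of `S` with the same product -/
def MulEn (m : ℕ) (S : Finset ℤ) : ℕ :=
  (((Fintype.piFinset fun _ : Fin m => S.erase 0) ×ˢ
    (Fintype.piFinset fun _ : Fin m => S.erase 0)).filter
    fun p => ∏ i, p.1 i = ∏ i, p.2 i).card

/-- `B` grows in all models of order `k`: for every image of `B` under an injective multiplicative
Freiman homomorphism of order `k` (with nonzero integral values) the additive energy of order `m` is
at most `X`, and for every image of `B` under an injective additive Freiman homomorphism of order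
`k` (with integral values) the multiplicative energy of order `m` is at most `X` -/
def Grows (k m : ℕ) (X : ℝ) (B : Finset ℤ) : Prop :=
  (∀ φ : ℤ → ℤ, Set.InjOn φ (B : Set ℤ) → IsMulFreimanHom k (B : Set ℤ) {0}ᶜ φ →
    (AddEn m (B.image φ) : ℝ) ≤ X) ∧
  (∀ ψ : ℤ → ℤ, Set.InjOn ψ (B : Set ℤ) → IsAddFreimanHom k (B : Set ℤ) Set.univ ψ →
    (MulEn m (B.image ψ) : ℝ) ≤ X)

/-- the number of the pairs of `k`-tuples of elements of `S` with the same sum, with weights -/
noncomputable def AddW (k : ℕ) (S : Finset ℤ) (c : ℤ → ℝ) : ℝ :=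
  ∑ x ∈ Fintype.piFinset (fun _ : Fin k => S), ∑ y ∈ Fintype.piFinset (fun _ : Fin k => S),
    if ∑ i, x i = ∑ i, y i then (∏ i, c (x i)) * ∏ i, c (y i) else 0

/-- the number of the pairs of `k`-tuples of elements of `S` with the same product, with weights -/
noncomputable def MulW (k : ℕ) (S : Finset ℤ) (c : ℤ → ℝ) : ℝ :=
  ∑ x ∈ Fintype.piFinset (fun _ : Fin k => S), ∑ y ∈ Fintype.piFinset (fun _ : Fin k => S),
    if ∏ i, x i = ∏ i, y i then (∏ i, c (x i)) * ∏ i, c (y i) else 0

/-- the sum-product estimate with the exponent `κ` for the finite sets of integers with the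
property `P` -/
def SumProduct (κ : ℝ) (P : Finset ℤ → Prop) : Prop :=
  ∃ c : ℝ, 0 < c ∧ ∀ A : Finset ℤ, A.Nonempty → P A →
    c * (A.card : ℝ) ^ κ ≤ max ((A + A).card : ℝ) ((A * A).card : ℝ)

/-- the finite sets of positive integers with `(b, M)`-growth in all models of order `2` -/
def Superpoly (b : ℝ) (M : ℕ) (A : Finset ℤ) : Prop :=
  (∀ a ∈ A, 0 < a) ∧ ∀ m : ℕ, M ≤ m → Grows 2 m ((A.card : ℝ) ^ (2 * (m : ℝ) - b)) A

end Pool.Agent.H166.SPD
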