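import Pool.Agent.H166.SPD.Subsets

/-!
The sets that violate a sum-product estimate.
-/

set_option autoImplicit false

namespace Pool.Agent.H166.SPD

open Finset
open scoped Pointwise

/-- a large set with small energy has many products (sums) -/
theorem energy_bound' {κ δ ε K x y n : ℝ} (hn : 1 ≤ n) (hK : 0 < K)
    (hx : n ^ (1 - δ) ≤ 2 * x) (hκ : κ = 2 - 2 * δ - 2 * ε)
    (h : x ^ 4 ≤ y * (K * n ^ ε * x) ^ 2) : 1 / (4 * K ^ 2) * n ^ κ ≤ y := by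
  have hn0 : 0 < n := by linarith
  have hp1 : 0 < n ^ (1 - δ) := Real.rpow_pos_of_pos hn0 _
  have hx0 : 0 < x := by linarith
  have h1 : x ^ 2 ≤ y * (K ^ 2 * n ^ (2 * ε)) := by
    have h2 : x ^ 2 * x ^ 2 ≤ (y * (K ^ 2 * n ^ (2 * ε))) * x ^ 2 := by
      calc x ^ 2 * x ^ 2 = x ^ 4 := by ring
        _ ≤ y * (K * n ^ ε * x) ^ 2 := h
        _ = (y * (K ^ 2 * (n ^ ε) ^ 2)) * x ^ 2 := by ring
        _ = _ := by
            rw [← Real.rpow_natCast (n ^ ε) 2, ← Real.rpow_mul hn0.le]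
            congr 4
            push_cast
            ring
    exact le_of_mul_le_mul_right h2 (by positivity)
  have h3 : n ^ κ * n ^ (2 * ε) = (n ^ (1 - δ)) ^ 2 := by
    rw [← Real.rpow_add hn0, ← Real.rpow_natCast (n ^ (1 - δ)) 2, ← Real.rpow_mul hn0.le, hκ]
    congr 1
    push_cast
    ring
  have h4 : (n ^ (1 - δ)) ^ 2 ≤ 4 * x ^ 2 := by nlinarith
  have hp : 0 < n ^ (2 * ε) := Real.rpow_pos_of_pos hn0 _
  have h5 : (1 / (4 * K ^ 2) * n ^ κ) * (4 * K ^ 2 * n ^ (2 * ε)) ≤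
      y * (4 * K ^ 2 * n ^ (2 * ε)) := by
    calc (1 / (4 * K ^ 2) * n ^ κ) * (4 * K ^ 2 * n ^ (2 * ε)) = n ^ κ * n ^ (2 * ε) := by
          field_simp
      _ = (n ^ (1 - δ)) ^ 2 := h3
      _ ≤ 4 * x ^ 2 := h4
      _ ≤ 4 * (y * (K ^ 2 * n ^ (2 * ε))) := by linarith
      _ = _ := by ring
  exact le_of_mul_le_mul_right h5 (by positivity)

theorem dichotomy (κ δ b : ℝ) (hδ : κ + 2 * δ < 2) (hb : 0 < b) :
    ∃ M : ℕ, 1 ≤ M ∧ ∃ c : ℝ, 0 < c ∧ ∀ A : Finset ℤ, A.Nonempty →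
      c * (A.card : ℝ) ^ κ ≤ max ((A + A).card : ℝ) ((A * A).card : ℝ) ∨
      ∃ B ⊆ A, 0 ∉ B ∧ ((A \ B).card : ℝ) ≤ (A.card : ℝ) ^ (1 - δ) ∧
        ∀ m : ℕ, M ≤ m → Grows 2 m ((A.card : ℝ) ^ (2 * (m : ℝ) - b)) B := by
  classical
  set ε : ℝ := (2 - κ - 2 * δ) / 2 with hε
  have hε0 : 0 < ε := by rw [hε]; linarith
  obtain ⟨M, hM, K, hK, hdec⟩ := decomp 2 le_rfl ε b hε0 hb
  refine ⟨M, hM, 1 / (4 * K ^ 2), by positivity, ?_⟩
  intro A hA
  set n : ℕ := A.card with hn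
  have cn : (1 : ℝ) ≤ n := by exact_mod_cast hA.card_pos
  have hκ : κ = 2 - 2 * δ - 2 * ε := by rw [hε]; ring
  obtain ⟨B, C, D, hu, hBC, hBD, -, h0B, -, hBG, hCW, hDW⟩ := hdec A
  have hBA : B ⊆ A := by rw [← hu]; intro a ha; simp [ha]
  have hCA : C ⊆ A := by rw [← hu]; intro a ha; simp [ha]
  have hDA : D ⊆ A := by rw [← hu]; intro a ha; simp [ha]
  by_cases hC : (n : ℝ) ^ (1 - δ) ≤ 2 * C.card
  · left
    have h4 := hCW (fun _ => 1) (fun _ => zero_le_one)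
    simp only [one_pow, Finset.sum_const, nsmul_eq_mul, mul_one] at h4
    have h5 : (C.card : ℝ) ^ 4 ≤ ((C * C).card : ℝ) * (K * (n : ℝ) ^ ε * C.card) ^ 2 :=
      (card_mul_ge C).trans (mul_le_mul_of_nonneg_left h4 (Nat.cast_nonneg _))
    exact (energy_bound' cn hK hC hκ h5).trans ((le_max_right _ _).trans (max_mono hCA))
  by_cases hD : (n : ℝ) ^ (1 - δ) ≤ 2 * D.card
  · left
    have h4 := hDW (fun _ => 1) (fun _ => zero_le_one)
    simp only [one_pow, Finset.sum_const, nsmul_eq_mul, mul_one] at h4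
    have h5 : (D.card : ℝ) ^ 4 ≤ ((D + D).card : ℝ) * (K * (n : ℝ) ^ ε * D.card) ^ 2 :=
      (card_add_ge D).trans (mul_le_mul_of_nonneg_left h4 (Nat.cast_nonneg _))
    exact (energy_bound' cn hK hD hκ h5).trans ((le_max_left _ _).trans (max_mono hDA))
  right
  refine ⟨B, hBA, h0B, ?_, hBG⟩
  have h1 : A \ B ⊆ C ∪ D := by
    intro a ha
    obtain ⟨ha1, ha2⟩ := mem_sdiff.1 ha
    rw [← hu, mem_union, mem_union] at ha1
    rcases ha1 with (h | h) | h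
    · exact absurd h ha2
    · exact mem_union_left _ h
    · exact mem_union_right _ h
  have h2 : ((A \ B).card : ℝ) ≤ C.card + D.card := by
    exact_mod_cast (Finset.card_le_card h1).trans (Finset.card_union_le _ _)
  push Not at hC hD
  linarith

end Pool.Agent.H166.SPD
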