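import Pool.Agent.H166.SPD.Rep
import Pool.Graph.R_seed8.H217R3.AK.Bsg

/-!
A large higher energy gives a large subset with few sums, in an arbitrary abelian group (adapted
from `Pool.Agent.Y359.LE`, where the group is `ℤ`).
-/

set_option autoImplicit false

namespace Pool.Agent.H166.SPD

open Finset
open scoped Pointwise

variable {G : Type*} [AddCommGroup G] [DecidableEq G]

/-- one step: the energy grows almost as fast as possible from `m` to `2 m` -/
theorem extract_step (A : Finset G) (hA : A.Nonempty) (n I : ℕ) (hI : A.card ^ (n + 1) < 2 ^ I)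
    (κ K : ℝ) (hκ : 1 ≤ κ) (hK : K = κ * (2 * I) ^ 4)
    (hE : (A.card : ℝ) ^ (2 * (n + 1)) * En A (n + 1) ≤ κ * En A ((n + 1) + (n + 1))) :
    ∃ D ⊆ A, ∃ P : Finset G, P.Nonempty ∧ (A.card : ℝ) ≤ 8 * K ^ 2 * D.card ∧
      ((D + P).card : ℝ) ≤ 2 ^ 22 * K ^ 10 * P.card ∧
      ((P - P).card : ℝ) ≤ 2 ^ 22 * K ^ 10 * P.card ∧
      (P.card : ℝ) * En A (n + 1) ≤ K * (A.card : ℝ) ^ (2 * (n + 1)) := by
  set m := n + 1 with hm
  have hAc : 1 ≤ A.card := hA.card_pos
  have hI0 : 0 < I := by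
    rcases Nat.eq_zero_or_pos I with h | h
    · rw [h, pow_zero] at hI
      have : 1 ≤ A.card ^ m := Nat.one_le_pow _ _ hAc
      omega
    · exact h
  have hI1 : (1 : ℝ) ≤ I := by exact_mod_cast hI0
  have hK1 : 1 ≤ K := by
    rw [hK]
    have h1 : (1 : ℝ) ≤ (2 * I) ^ 4 := one_le_pow₀ (by linarith)
    nlinarith
  set X := sm A m with hX
  have hXne : X.Nonempty := by
    obtain ⟨a, ha⟩ := hA
    exact ⟨_, mem_image.2 ⟨fun _ => a, Fintype.mem_piFinset.2 fun _ => ha, rfl⟩⟩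
  obtain ⟨i, hi, hlev⟩ := exists_level (rep A m) X I hI0 (fun z hz => rep_ne hz)
    (fun z => lt_of_le_of_lt (rep_le A m z) hI)
  rw [← En_double A m] at hlev
  set P := lev (rep A m) X i with hP
  have hPX : P ⊆ X := Finset.filter_subset _ _
  -- real quantities
  set a : ℝ := (A.card : ℝ) ^ m with ha
  set E : ℝ := (En A m : ℝ) with hEdef
  set q : ℝ := (2 : ℝ) ^ i with hq
  set p : ℝ := (P.card : ℝ) with hp
  set eP : ℝ := (P.addEnergy P : ℝ) with heP
  have ha0 : 0 < a := by positivity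
  have hq0 : 0 < q := by positivity
  have hp0 : 0 ≤ p := by positivity
  have hEn_pos : 0 < E := by
    have h1 : 0 < En A m := by
      rw [En_eq A m X (Finset.Subset.refl _)]
      obtain ⟨z, hz⟩ := hXne
      refine Finset.sum_pos' (fun _ _ => Nat.zero_le _) ⟨z, hz, ?_⟩
      obtain ⟨f, hf, hfz⟩ := mem_image.1 hz
      have : 0 < rep A m z := Finset.card_pos.2 ⟨f, mem_filter.2 ⟨hf, hfz⟩⟩
      positivity
    rw [hEdef]
    exact_mod_cast h1
  have h_a : q * p ≤ a := by
    have h1 : 2 ^ i * P.card ≤ ∑ z ∈ P, rep A m z := by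
      rw [mul_comm, ← smul_eq_mul, ← Finset.sum_const]
      exact Finset.sum_le_sum fun z hz => (mem_filter.1 hz).2.1
    have h2 : ∑ z ∈ P, rep A m z ≤ A.card ^ m := by
      rw [← rep_total A m X (Finset.Subset.refl _)]
      exact Finset.sum_le_sum_of_subset hPX
    have h3 : 2 ^ i * P.card ≤ A.card ^ m := h1.trans h2
    rw [hq, hp, ha]
    exact_mod_cast h3
  have h_b : q ^ 2 * p ≤ E := by
    have h1 : (2 ^ i) ^ 2 * P.card ≤ ∑ z ∈ P, rep A m z ^ 2 := by
      rw [mul_comm, ← smul_eq_mul, ← Finset.sum_const]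
      exact Finset.sum_le_sum fun z hz => Nat.pow_le_pow_left (mem_filter.1 hz).2.1 2
    have h2 : ∑ z ∈ P, rep A m z ^ 2 ≤ En A m := by
      rw [En_eq A m X (Finset.Subset.refl _)]
      exact Finset.sum_le_sum_of_subset hPX
    have h3 : (2 ^ i) ^ 2 * P.card ≤ En A m := h1.trans h2
    rw [hq, hp, hEdef]
    exact_mod_cast h3
  have h_c : a ^ 2 * E ≤ K * (q ^ 4 * eP) := by
    have h1 : (En A (m + m) : ℝ) ≤ (I : ℝ) ^ 4 * (2 ^ (4 * (i + 1)) * eP) := by
      rw [heP]
      exact_mod_cast hlev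
    have h2 : a ^ 2 * E = (A.card : ℝ) ^ (2 * m) * En A m := by rw [ha, hEdef]; ring
    rw [h2]
    refine hE.trans ?_
    have h3 := mul_le_mul_of_nonneg_left h1 (by linarith : (0 : ℝ) ≤ κ)
    refine h3.trans (le_of_eq ?_)
    rw [hK, hq]
    ring
  have heP0 : 0 < eP := by
    by_contra hcon
    have h1 : eP = 0 := le_antisymm (not_lt.1 hcon) (by positivity)
    rw [h1, mul_zero, mul_zero] at h_c
    have : 0 < a ^ 2 * E := by positivity
    linarith
  have hPne : P.Nonempty := by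
    have h1 : 0 < P.addEnergy P := by
      rw [heP] at heP0
      exact_mod_cast heP0
    exact Finset.addEnergy_self_pos_iff.1 h1
  have hp1 : 0 < p := by
    rw [hp]
    exact_mod_cast hPne.card_pos
  have hK0 : 0 < K := by linarith
  have hbsg : p ^ 3 ≤ K * eP := by
    have h1 : (q * p) ^ 2 * (q ^ 2 * p) ≤ a ^ 2 * E :=
      mul_le_mul (pow_le_pow_left₀ (by positivity) h_a 2) h_b (by positivity) (by positivity)
    have h2 : q ^ 4 * p ^ 3 ≤ q ^ 4 * (K * eP) := by
      calc q ^ 4 * p ^ 3 = (q * p) ^ 2 * (q ^ 2 * p) := by ring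
        _ ≤ K * (q ^ 4 * eP) := h1.trans h_c
        _ = q ^ 4 * (K * eP) := by ring
    exact le_of_mul_le_mul_left h2 (by positivity)
  have hcube : eP ≤ p ^ 3 := by
    rw [heP, hp]
    exact_mod_cast energy_le_cube P
  have h_c' : a ^ 2 * E ≤ K * (q ^ 4 * p ^ 3) :=
    h_c.trans (mul_le_mul_of_nonneg_left (mul_le_mul_of_nonneg_left hcube (by positivity)) hK0.le)
  have h_d : a ^ 2 ≤ K * (q * p) ^ 2 := by
    have h1 : a ^ 2 * E ≤ K * (q * p) ^ 2 * E := by
      calc a ^ 2 * E ≤ K * (q ^ 4 * p ^ 3) := h_c'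
        _ = K * (q * p) ^ 2 * (q ^ 2 * p) := by ring
        _ ≤ K * (q * p) ^ 2 * E := mul_le_mul_of_nonneg_left h_b (by positivity)
    exact le_of_mul_le_mul_right h1 hEn_pos
  have h_e : p * E ≤ K * a ^ 2 := by
    have h1 : a ^ 2 * (p * E) ≤ a ^ 2 * (K * a ^ 2) := by
      calc a ^ 2 * (p * E) = p * (a ^ 2 * E) := by ring
        _ ≤ p * (K * (q ^ 4 * p ^ 3)) := mul_le_mul_of_nonneg_left h_c' hp0
        _ = K * (q * p) ^ 4 := by ring
        _ ≤ K * a ^ 4 := mul_le_mul_of_nonneg_left (pow_le_pow_left₀ (by positivity) h_a 4) hK0.le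
        _ = a ^ 2 * (K * a ^ 2) := by ring
    exact le_of_mul_le_mul_left h1 (by positivity)
  obtain ⟨P', hP'P, hP'ne, hcard, hdiff⟩ :=
    Pool.Agent.H217R3.AK.bsg P hPne K hK0 hbsg
  obtain ⟨w, hw⟩ := popular A n P' hA
  set D := A.filter (fun a => a + w ∈ P') with hD
  refine ⟨D, Finset.filter_subset _ _, -P', hP'ne.neg, ?_, ?_, ?_, ?_⟩
  · -- the size of `D`
    have h1 : q * (P'.card : ℝ) ≤ (A.card : ℝ) ^ n * D.card := by
      have h2 : 2 ^ i * P'.card ≤ ∑ z ∈ P', rep A (n + 1) z := by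
        rw [mul_comm, ← smul_eq_mul, ← Finset.sum_const]
        exact Finset.sum_le_sum fun z hz => (mem_filter.1 (hP'P hz)).2.1
      rw [hq]
      exact_mod_cast h2.trans hw
    set p' : ℝ := (P'.card : ℝ) with hp'
    have hp'0 : 0 < p' := by
      rw [hp']
      exact_mod_cast hP'ne.card_pos
    have h2 : a ^ 2 ≤ (8 * K ^ 2 * (q * p')) ^ 2 := by
      calc a ^ 2 ≤ K * (q * p) ^ 2 := h_d
        _ ≤ K * (q * (8 * K * p')) ^ 2 :=
            mul_le_mul_of_nonneg_left (pow_le_pow_left₀ (by positivity)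
              (mul_le_mul_of_nonneg_left hcard hq0.le) 2) hK0.le
        _ = (8 * (q * p')) ^ 2 * K ^ 3 := by ring
        _ ≤ (8 * (q * p')) ^ 2 * K ^ 4 :=
            mul_le_mul_of_nonneg_left (pow_le_pow_right₀ hK1 (by norm_num)) (by positivity)
        _ = (8 * K ^ 2 * (q * p')) ^ 2 := by ring
    have h3 : a ≤ 8 * K ^ 2 * (q * p') := by
      have := abs_le_of_sq_le_sq' h2 (by positivity)
      exact this.2
    have h4 : a ≤ 8 * K ^ 2 * ((A.card : ℝ) ^ n * D.card) :=
      h3.trans (mul_le_mul_of_nonneg_left h1 (by positivity))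
    have h5 : (A.card : ℝ) ^ n * A.card ≤ (A.card : ℝ) ^ n * (8 * K ^ 2 * D.card) := by
      have h6 : a = (A.card : ℝ) ^ n * A.card := by rw [ha, hm, pow_succ]
      rw [← h6]
      refine h4.trans (le_of_eq ?_)
      ring
    exact le_of_mul_le_mul_left h5 (by positivity)
  · -- few sums
    have h1 : D + -P' ⊆ (P' - P').image fun z => z - w := by
      intro z hz
      obtain ⟨d, hd, r, hr, rfl⟩ := Finset.mem_add.1 hz
      rw [Finset.mem_neg] at hr
      obtain ⟨r', hr', rfl⟩ := hr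
      refine mem_image.2 ⟨(d + w) - r', Finset.sub_mem_sub (mem_filter.1 hd).2 hr', by grind⟩
    have h2 : ((D + -P').card : ℝ) ≤ (P' - P').card := by
      exact_mod_cast (Finset.card_le_card h1).trans Finset.card_image_le
    rw [Finset.card_neg]
    exact h2.trans hdiff
  · rw [neg_sub_neg, Finset.card_neg]
    exact hdiff
  · rw [Finset.card_neg]
    have h1 : (P'.card : ℝ) ≤ p := by
      rw [hp]
      exact_mod_cast Finset.card_le_card hP'P
    have h2 : (P'.card : ℝ) * E ≤ p * E := mul_le_mul_of_nonneg_right h1 hEn_pos.le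
    have h3 : (A.card : ℝ) ^ (2 * m) = a ^ 2 := by rw [ha]; ring
    rw [h3]
    exact h2.trans h_e

end Pool.Agent.H166.SPD
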