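import Mathlib

/-!
An integral logarithm which is faithful on the products of `k` elements of a finite set of positive
integers.
-/

set_option autoImplicit false

namespace Pool.Agent.H166.SPD

open Finset Polynomial

/-- the polynomial whose coefficients are the exponents of the primes -/
noncomputable def LP (n : ℕ) : ℤ[X] := n.factorization.sum fun p e => monomial p (e : ℤ)

theorem LP_coeff (n p : ℕ) : (LP n).coeff p = n.factorization p := by
  unfold LP
  rw [Finsupp.sum, finsetSum_coeff]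
  simp only [coeff_monomial]
  rw [Finset.sum_ite_eq']
  split_ifs with h
  · rfl
  · rw [Finsupp.notMem_support_iff.1 h]
    rfl

theorem LP_inj {m n : ℕ} (hm : m ≠ 0) (hn : n ≠ 0) (h : LP m = LP n) : m = n := by
  apply Nat.eq_of_factorization_eq hm hn
  intro p
  have h1 : (LP m).coeff p = (LP n).coeff p := by rw [h]
  rw [LP_coeff, LP_coeff] at h1
  exact_mod_cast h1

theorem LP_mul {m n : ℕ} (hm : m ≠ 0) (hn : n ≠ 0) : LP (m * n) = LP m + LP n := by
  ext p
  rw [coeff_add, LP_coeff, LP_coeff, LP_coeff, Nat.factorization_mul hm hn]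
  push_cast
  simp

theorem LP_prod {ι : Type*} (s : Finset ι) (f : ι → ℕ) (h : ∀ i ∈ s, f i ≠ 0) :
    LP (∏ i ∈ s, f i) = ∑ i ∈ s, LP (f i) := by
  classical
  induction s using Finset.induction_on with
  | empty =>
    ext p
    rw [LP_coeff]
    simp
  | insert i s hi ih =>
    rw [Finset.prod_insert hi, Finset.sum_insert hi,
      LP_mul (h i (Finset.mem_insert_self i s))
        (Finset.prod_ne_zero_iff.2 fun j hj => h j (Finset.mem_insert_of_mem hj)),
      ih fun j hj => h j (Finset.mem_insert_of_mem hj)]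

theorem exists_eval_injOn (F : Finset ℤ[X]) :
    ∃ t : ℤ, ∀ f ∈ F, ∀ g ∈ F, f.eval t = g.eval t → f = g := by
  classical
  set Q : ℤ[X] := ∏ x ∈ (F ×ˢ F).filter (fun x => x.1 ≠ x.2), (x.1 - x.2) with hQ
  have hQ0 : Q ≠ 0 := by
    rw [hQ, Finset.prod_ne_zero_iff]
    intro x hx
    exact sub_ne_zero.2 (mem_filter.1 hx).2
  obtain ⟨t, ht⟩ : ∃ t : ℤ, Q.eval t ≠ 0 := by
    by_contra hcon
    push Not at hcon
    exact hQ0 (Polynomial.funext fun t => by rw [hcon t, eval_zero])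
  refine ⟨t, fun f hf g hg h => ?_⟩
  by_contra hne
  rw [hQ, eval_prod, Finset.prod_ne_zero_iff] at ht
  have h1 := ht (f, g) (mem_filter.2 ⟨mem_product.2 ⟨hf, hg⟩, hne⟩)
  apply h1
  rw [eval_sub, h, sub_self]

theorem exists_log (S : Finset ℤ) (hS : ∀ a ∈ S, 0 < a) (k : ℕ) :
    ∃ l : ℤ → ℤ, ∀ x y : Fin k → ℤ, (∀ i, x i ∈ S) → (∀ i, y i ∈ S) →
      (∑ i, l (x i) = ∑ i, l (y i) ↔ ∏ i, x i = ∏ i, y i) := by
  classical
  obtain ⟨t, ht⟩ := exists_eval_injOn ((Fintype.piFinset fun _ : Fin k => S).image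
    fun x => LP (∏ i, (x i).natAbs))
  refine ⟨fun a => (LP a.natAbs).eval t, ?_⟩
  intro x y hx hy
  have hne : ∀ z : Fin k → ℤ, (∀ i, z i ∈ S) → ∀ i, (z i).natAbs ≠ 0 := by
    intro z hz i
    have := hS _ (hz i)
    omega
  have hsum : ∀ z : Fin k → ℤ, (∀ i, z i ∈ S) →
      ∑ i, (LP (z i).natAbs).eval t = (LP (∏ i, (z i).natAbs)).eval t := by
    intro z hz
    rw [LP_prod _ _ fun i _ => hne z hz i, eval_finsetSum]
  have hcast : ∀ z : Fin k → ℤ, (∀ i, z i ∈ S) → ((∏ i, (z i).natAbs : ℕ) : ℤ) = ∏ i, z i := by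
    intro z hz
    push_cast
    refine Finset.prod_congr rfl fun i _ => abs_of_pos (hS _ (hz i))
  show ∑ i, (LP (x i).natAbs).eval t = ∑ i, (LP (y i).natAbs).eval t ↔ _
  rw [hsum x hx, hsum y hy, ← hcast x hx, ← hcast y hy]
  constructor
  · intro h
    have h1 := ht _ (mem_image.2 ⟨x, Fintype.mem_piFinset.2 hx, rfl⟩) _
      (mem_image.2 ⟨y, Fintype.mem_piFinset.2 hy, rfl⟩) h
    have h2 := LP_inj (Finset.prod_ne_zero_iff.2 fun i _ => hne x hx i)
      (Finset.prod_ne_zero_iff.2 fun i _ => hne y hy i) h1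
    rw [h2]
  · intro h
    have h2 : (∏ i, (x i).natAbs : ℕ) = ∏ i, (y i).natAbs := by exact_mod_cast h
    rw [h2]

/-- the logarithm of the absolute value -/
theorem exists_log_abs (S : Finset ℤ) (hS : ∀ a ∈ S, a ≠ 0) (k : ℕ) :
    ∃ l : ℤ → ℤ, ∀ x y : Fin k → ℤ, (∀ i, x i ∈ S) → (∀ i, y i ∈ S) →
      (∑ i, l (x i) = ∑ i, l (y i) ↔ |∏ i, x i| = |∏ i, y i|) := by
  obtain ⟨l, hl⟩ := exists_log (S.image fun a => |a|) (by
    intro a ha
    obtain ⟨b, hb, rfl⟩ := mem_image.1 ha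
    exact abs_pos.2 (hS b hb)) k
  refine ⟨fun a => l |a|, ?_⟩
  intro x y hx hy
  have h := hl (fun i => |x i|) (fun i => |y i|) (fun i => mem_image_of_mem _ (hx i))
    (fun i => mem_image_of_mem _ (hy i))
  rw [Finset.abs_prod, Finset.abs_prod]
  exact h

end Pool.Agent.H166.SPD
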