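import Pool.Graph.R_seed8.Y849.LW.Maj

/-!
Weighted numbers of coincidences and moments of trigonometric sums.
-/

set_option autoImplicit false

namespace Pool.Agent.H166.SPD

open Finset Pool.Agent.H384R3.SPk.C

variable {α H H' : Type*} [AddCommMonoid H] [DecidableEq H] [AddCommMonoid H']
  [DecidableEq H']

/-- the weighted number of the pairs of `k`-tuples of elements of `S` with the same sum of the
values of `v` -/
noncomputable def WE (k : ℕ) (S : Finset α) (v : α → H) (c : α → ℝ) : ℝ :=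
  ∑ x ∈ Fintype.piFinset (fun _ : Fin k => S), ∑ y ∈ Fintype.piFinset (fun _ : Fin k => S),
    if ∑ i, v (x i) = ∑ i, v (y i) then (∏ i, c (x i)) * ∏ i, c (y i) else 0

theorem WE_mono (k : ℕ) (S : Finset α) (v : α → H) (w : α → H') (c : α → ℝ)
    (hc : ∀ a ∈ S, 0 ≤ c a)
    (h : ∀ x y : Fin k → α, (∀ i, x i ∈ S) → (∀ i, y i ∈ S) →
      ∑ i, v (x i) = ∑ i, v (y i) → ∑ i, w (x i) = ∑ i, w (y i)) :
    WE k S v c ≤ WE k S w c := by
  unfold WE
  refine Finset.sum_le_sum fun x hx => Finset.sum_le_sum fun y hy => ?_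
  rw [Fintype.mem_piFinset] at hx hy
  by_cases h1 : ∑ i, v (x i) = ∑ i, v (y i)
  · rw [if_pos h1, if_pos (h x y hx hy h1)]
  · rw [if_neg h1]
    split_ifs
    · exact mul_nonneg (Finset.prod_nonneg fun i _ => hc _ (hx i))
        (Finset.prod_nonneg fun i _ => hc _ (hy i))
    · exact le_rfl

theorem prod_sq_sum (k : ℕ) (S : Finset α) (c : α → ℝ) :
    ∑ x ∈ Fintype.piFinset (fun _ : Fin k => S), (∏ i, c (x i)) ^ 2 = (∑ a ∈ S, c a ^ 2) ^ k := by
  classical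
  have h := Finset.prod_univ_sum (fun _ : Fin k => S) (fun _ a => c a ^ 2)
  simp only [Finset.prod_const, Finset.card_univ, Fintype.card_fin] at h
  rw [h]
  refine Finset.sum_congr rfl fun x _ => ?_
  rw [← Finset.prod_pow]

theorem WE_pointwise (k : ℕ) (S : Finset α) (v : α → H) (c : α → ℝ) (Y : ℝ)
    (hY : ∀ y : Fin k → α, (∀ i, y i ∈ S) →
      (((Fintype.piFinset fun _ : Fin k => S).filter fun x =>
        ∑ i, v (x i) = ∑ i, v (y i)).card : ℝ) ≤ Y) :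
    WE k S v c ≤ Y * (∑ a ∈ S, c a ^ 2) ^ k := by
  unfold WE
  set T := Fintype.piFinset (fun _ : Fin k => S) with hT
  have h1 : ∀ x ∈ T, ∀ y ∈ T,
      (if ∑ i, v (x i) = ∑ i, v (y i) then (∏ i, c (x i)) * ∏ i, c (y i) else 0) ≤
        (if ∑ i, v (x i) = ∑ i, v (y i) then (∏ i, c (x i)) ^ 2 / 2 else 0) +
        (if ∑ i, v (x i) = ∑ i, v (y i) then (∏ i, c (y i)) ^ 2 / 2 else 0) := by
    intro x _ y _
    split_ifs
    · nlinarith [sq_nonneg ((∏ i, c (x i)) - ∏ i, c (y i))]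
    · simp
  have h2 : ∀ y ∈ T, ∑ x ∈ T, (if ∑ i, v (x i) = ∑ i, v (y i) then (∏ i, c (y i)) ^ 2 / 2 else 0) ≤
      Y * ((∏ i, c (y i)) ^ 2 / 2) := by
    intro y hy
    rw [← Finset.sum_filter, Finset.sum_const, nsmul_eq_mul]
    refine mul_le_mul_of_nonneg_right ?_ (by positivity)
    exact hY y (Fintype.mem_piFinset.1 hy)
  have h3 : ∀ x ∈ T, ∑ y ∈ T, (if ∑ i, v (x i) = ∑ i, v (y i) then (∏ i, c (x i)) ^ 2 / 2 else 0) ≤
      Y * ((∏ i, c (x i)) ^ 2 / 2) := by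
    intro x hx
    have h4 := h2 x hx
    refine le_trans (le_of_eq ?_) h4
    refine Finset.sum_congr rfl fun y _ => ?_
    by_cases h : ∑ i, v (x i) = ∑ i, v (y i)
    · rw [if_pos h, if_pos h.symm]
    · rw [if_neg h, if_neg fun h' => h h'.symm]
  calc _ ≤ ∑ x ∈ T, ∑ y ∈ T,
        ((if ∑ i, v (x i) = ∑ i, v (y i) then (∏ i, c (x i)) ^ 2 / 2 else 0) +
        (if ∑ i, v (x i) = ∑ i, v (y i) then (∏ i, c (y i)) ^ 2 / 2 else 0)) :=
        Finset.sum_le_sum fun x hx => Finset.sum_le_sum fun y hy => h1 x hx y hy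
    _ = ∑ x ∈ T, ∑ y ∈ T, (if ∑ i, v (x i) = ∑ i, v (y i) then (∏ i, c (x i)) ^ 2 / 2 else 0) +
        ∑ y ∈ T, ∑ x ∈ T, (if ∑ i, v (x i) = ∑ i, v (y i) then (∏ i, c (y i)) ^ 2 / 2 else 0) := by
        simp only [Finset.sum_add_distrib]
        congr 1
        exact Finset.sum_comm
    _ ≤ ∑ x ∈ T, Y * ((∏ i, c (x i)) ^ 2 / 2) + ∑ y ∈ T, Y * ((∏ i, c (y i)) ^ 2 / 2) :=
        add_le_add (Finset.sum_le_sum h3) (Finset.sum_le_sum h2)
    _ = Y * ∑ x ∈ T, (∏ i, c (x i)) ^ 2 := by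
        rw [← two_mul, Finset.mul_sum, Finset.mul_sum]
        refine Finset.sum_congr rfl fun x _ => ?_
        ring
    _ = _ := by rw [prod_sq_sum]

/-- the moment of a trigonometric sum -/
theorem WE_int (k : ℕ) (S : Finset α) (v : α → ℤ) (c : α → ℝ) :
    WE k S v c = ∫ x in (0:ℝ)..1, ‖∑ a ∈ S, (c a : ℂ) * e (v a) x‖ ^ (2 * k) := by
  classical
  set T := Fintype.piFinset (fun _ : Fin k => S) with hT
  set Z := T.image fun f => ∑ i, v (f i) with hZ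
  set r : ℤ → ℝ := fun s => ∑ f ∈ T with ∑ i, v (f i) = s, ∏ i, c (f i) with hr
  have hmaps : ∀ f ∈ T, (∑ i, v (f i)) ∈ Z := fun f hf => mem_image_of_mem _ hf
  have hpow : ∀ x : ℝ, (∑ a ∈ S, (c a : ℂ) * e (v a) x) ^ k = ∑ s ∈ Z, (r s : ℂ) * e s x := by
    intro x
    have h1 : (∑ a ∈ S, (c a : ℂ) * e (v a) x) ^ k =
        ∑ f ∈ T, ∏ i, ((c (f i) : ℂ) * e (v (f i)) x) := by
      have := Finset.prod_univ_sum (fun _ : Fin k => S) (fun _ a => (c a : ℂ) * e (v a) x)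
      rw [← this]
      simp
    rw [h1, ← Finset.sum_fiberwise_of_maps_to hmaps]
    refine sum_congr rfl fun s _ => ?_
    rw [hr]
    simp only
    push_cast
    rw [sum_mul]
    refine sum_congr rfl fun f hf => ?_
    rw [prod_mul_distrib, ← e_sum, (mem_filter.1 hf).2]
  have h1 : ∫ x in (0:ℝ)..1, ‖∑ a ∈ S, (c a : ℂ) * e (v a) x‖ ^ (2 * k) =
      ∫ x in (0:ℝ)..1, ‖∑ s ∈ Z, (r s : ℂ) * e s x‖ ^ 2 := by
    congr 1
    ext x
    rw [← hpow, norm_pow, ← pow_mul, mul_comm]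
  rw [h1, parseval]
  have h2 : WE k S v c = ∑ x ∈ T, (∏ i, c (x i)) * r (∑ i, v (x i)) := by
    unfold WE
    refine Finset.sum_congr rfl fun x _ => ?_
    rw [hr]
    simp only
    rw [Finset.mul_sum, Finset.sum_filter]
    refine Finset.sum_congr rfl fun y _ => ?_
    by_cases h : ∑ i, v (x i) = ∑ i, v (y i)
    · rw [if_pos h, if_pos h.symm]
    · rw [if_neg h, if_neg fun h' => h h'.symm]
  rw [h2, ← Finset.sum_fiberwise_of_maps_to hmaps]
  refine Finset.sum_congr rfl fun s _ => ?_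
  rw [sq]
  conv_rhs => rw [hr]
  simp only
  rw [Finset.sum_mul]
  refine Finset.sum_congr rfl fun f hf => ?_
  rw [(mem_filter.1 hf).2]

theorem norm_pow_sum_le {ι : Type*} (X : Finset ι) (z : ι → ℂ) (k : ℕ) (hk : 1 ≤ k) :
    ‖∑ j ∈ X, z j‖ ^ (2 * k) ≤ (X.card : ℝ) ^ (2 * k - 1) * ∑ j ∈ X, ‖z j‖ ^ (2 * k) := by
  have h1 : ‖∑ j ∈ X, z j‖ ^ (2 * k) ≤ (∑ j ∈ X, ‖z j‖) ^ (2 * k) :=
    pow_le_pow_left₀ (norm_nonneg _) (norm_sum_le _ _) _
  refine h1.trans ?_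
  obtain ⟨m, hm⟩ : ∃ m, 2 * k = m + 1 := ⟨2 * k - 1, by omega⟩
  rw [hm]
  have h2 := pow_sum_div_card_le_sum_pow (s := X) (f := fun j => ‖z j‖) (n := m)
    (fun j _ => norm_nonneg _)
  rcases X.eq_empty_or_nonempty with h0 | h0
  · subst h0
    simp
  · have hc : (0 : ℝ) < (X.card : ℝ) ^ m := by
      have : (0 : ℝ) < X.card := by exact_mod_cast h0.card_pos
      positivity
    rw [div_le_iff₀ hc] at h2
    rw [show m + 1 - 1 = m by omega, mul_comm]
    exact h2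

theorem sum_pow_le {ι : Type*} (X : Finset ι) (x : ι → ℝ) (hx : ∀ j ∈ X, 0 ≤ x j) (k : ℕ)
    (hk : 1 ≤ k) : ∑ j ∈ X, x j ^ k ≤ (∑ j ∈ X, x j) ^ k := by
  obtain ⟨m, rfl⟩ : ∃ m, k = m + 1 := ⟨k - 1, by omega⟩
  rw [pow_succ, Finset.mul_sum]
  refine Finset.sum_le_sum fun j hj => ?_
  rw [pow_succ]
  exact mul_le_mul_of_nonneg_right (pow_le_pow_left₀ (hx j hj) (Finset.single_le_sum hx hj) m)
    (hx j hj)

theorem trig_cont (S : Finset α) (v : α → ℤ) (c : α → ℝ) :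
    Continuous fun x : ℝ => ∑ a ∈ S, (c a : ℂ) * e (v a) x :=
  continuous_finsetSum _ fun a _ => (e_cont (v a)).const_mul _

/-- a union of few pieces -/
theorem WE_union {ι : Type*} [DecidableEq ι] (k : ℕ) (hk : 1 ≤ k) (S : Finset α) (X : Finset ι)
    (P : ι → Finset α) (hS : ∀ a ∈ S, ∃ j ∈ X, a ∈ P j) (v : α → ℤ) (c : α → ℝ) (L : ℝ)
    (hL : 0 ≤ L)
    (h : ∀ j ∈ X, ∀ S' ⊆ S, S' ⊆ P j → WE k S' v c ≤ (L * ∑ a ∈ S', c a ^ 2) ^ k) :
    WE k S v c ≤ (X.card : ℝ) ^ (2 * k - 1) * (L * ∑ a ∈ S, c a ^ 2) ^ k := by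
  classical
  rcases S.eq_empty_or_nonempty with h0 | ⟨a₀, ha₀⟩
  · subst h0
    have h1 : WE k (∅ : Finset α) v c = 0 := by
      unfold WE
      have : (Fintype.piFinset fun _ : Fin k => (∅ : Finset α)) = ∅ := by
        rw [Finset.eq_empty_iff_forall_notMem]
        intro f hf
        exact absurd (Fintype.mem_piFinset.1 hf ⟨0, hk⟩) (Finset.notMem_empty _)
      rw [this]
      simp
    rw [h1]
    simp only [Finset.sum_empty, mul_zero]
    positivity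
  obtain ⟨j₀, _, _⟩ := hS a₀ ha₀
  haveI : Nonempty ι := ⟨j₀⟩
  choose! g hg1 hg2 using hS
  set Sj : ι → Finset α := fun j => S.filter fun a => g a = j with hSj
  have hmaps : ∀ a ∈ S, g a ∈ X := hg1
  have hsub : ∀ j, Sj j ⊆ S := fun j => Finset.filter_subset _ _
  have hsubP : ∀ j, Sj j ⊆ P j := by
    intro j a ha
    obtain ⟨h1, h2⟩ := mem_filter.1 ha
    rw [← h2]
    exact hg2 a h1
  have hsplit : ∀ x : ℝ, ∑ a ∈ S, (c a : ℂ) * e (v a) x =
      ∑ j ∈ X, ∑ a ∈ Sj j, (c a : ℂ) * e (v a) x := fun x =>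
    (Finset.sum_fiberwise_of_maps_to hmaps _).symm
  rw [WE_int]
  have hint : ∀ (T : Finset α) , IntervalIntegrable
      (fun x : ℝ => ‖∑ a ∈ T, (c a : ℂ) * e (v a) x‖ ^ (2 * k)) MeasureTheory.volume 0 1 :=
    fun T => ((trig_cont T v c).norm.pow _).intervalIntegrable _ _
  calc ∫ x in (0:ℝ)..1, ‖∑ a ∈ S, (c a : ℂ) * e (v a) x‖ ^ (2 * k)
      ≤ ∫ x in (0:ℝ)..1, (X.card : ℝ) ^ (2 * k - 1) *
          ∑ j ∈ X, ‖∑ a ∈ Sj j, (c a : ℂ) * e (v a) x‖ ^ (2 * k) := by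
        apply intervalIntegral.integral_mono_on zero_le_one (hint S)
        · apply Continuous.intervalIntegrable
          exact continuous_const.mul
            (continuous_finsetSum _ fun j _ => (trig_cont (Sj j) v c).norm.pow _)
        · intro x _
          rw [hsplit]
          exact norm_pow_sum_le X _ k hk
    _ = (X.card : ℝ) ^ (2 * k - 1) * ∑ j ∈ X, WE k (Sj j) v c := by
        rw [intervalIntegral.integral_const_mul, intervalIntegral.integral_finsetSum]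
        · congr 1
          refine Finset.sum_congr rfl fun j _ => ?_
          rw [WE_int]
        · intro j _
          exact hint (Sj j)
    _ ≤ (X.card : ℝ) ^ (2 * k - 1) * ∑ j ∈ X, (L * ∑ a ∈ Sj j, c a ^ 2) ^ k := by
        refine mul_le_mul_of_nonneg_left ?_ (by positivity)
        exact Finset.sum_le_sum fun j hj => h j hj _ (hsub j) (hsubP j)
    _ ≤ (X.card : ℝ) ^ (2 * k - 1) * (∑ j ∈ X, L * ∑ a ∈ Sj j, c a ^ 2) ^ k := by
        refine mul_le_mul_of_nonneg_left (sum_pow_le X _ ?_ k hk) (by positivity)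
        intro j _
        exact mul_nonneg hL (Finset.sum_nonneg fun a _ => sq_nonneg _)
    _ = _ := by
        rw [← Finset.mul_sum, Finset.sum_fiberwise_of_maps_to hmaps]

end Pool.Agent.H166.SPD
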