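import Pool.Agent.H166.SPD.Units
import Pool.Agent.H166.SPD.Weight
import Pool.Graph.R_seed8.Y849.LW.Fin

/-!
The pieces: a piece with few products is a `Λ(2k)` set, a piece with few sums has few factorisations.
-/

set_option autoImplicit false

namespace Pool.Agent.H166.SPD

open Finset
open scoped Pointwise

/-- the constant of a multiplicative piece -/
noncomputable def Tc (R β : ℝ) : ℝ := 2 * R * (2 * R ^ 2) ^ β

theorem mul_piece {k : ℕ} (hk : 2 ≤ k) {β : ℝ} (hβ : Pool.Agent.Y849.LW.Cond k 2 β)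
    {K p : ℝ} (hK : 1 ≤ K) (D₀ : Finset (Additive ℚˣ)) (hD : Piece K p D₀) (A : Finset ℤ)
    (hA0 : ∀ a ∈ A, a ≠ 0) (hAD : ∀ a ∈ A, uz a ∈ D₀) (c : ℤ → ℂ) :
    ∫ x in (0:ℝ)..1,
        ‖∑ m ∈ A, c m * Complex.exp (2 * Real.pi * Complex.I * m * x)‖ ^ (2 * k) ≤
          (Tc (2 ^ 22 * K ^ 10) β * ∑ m ∈ A, ‖c m‖ ^ 2) ^ k := by
  classical
  obtain ⟨P, hP, h1, h2, -⟩ := hD
  set R : ℝ := 2 ^ 22 * K ^ 10 with hR
  have hR1 : 1 ≤ R := by
    have : (1 : ℝ) ≤ K ^ 10 := one_le_pow₀ hK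
    rw [hR]
    nlinarith
  have hβ0 : 0 < β := Pool.Agent.Y849.LW.Cond.pos hk le_rfl hβ
  obtain ⟨B, t, hB, hBp, hBc, hBt⟩ := exists_pos P hP
  have cP : (0 : ℝ) < P.card := by exact_mod_cast hP.card_pos
  have cB : (0 : ℝ) < B.card := by exact_mod_cast hB.card_pos
  have hPB : (P.card : ℝ) ≤ 2 * B.card := by exact_mod_cast hBc
  -- `|A B| ≤ |D₀ + P|`
  have hAB : ((A * B).card : ℝ) ≤ R * P.card := by
    refine le_trans ?_ h1
    have h3 : (A * B).card ≤ (D₀ + P).card := by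
      apply Finset.card_le_card_of_injOn (fun z => uz z - t)
      · intro z hz
        obtain ⟨a, ha, b, hb, rfl⟩ := Finset.mem_mul.1 (mem_coe.1 hz)
        show uz (a * b) - t ∈ _
        rw [uz_mul (hA0 a ha) (hBp b hb).ne', add_sub_assoc]
        exact mem_coe.2 (Finset.add_mem_add (hAD a ha) (hBt b hb))
      · intro z hz z' hz' h
        obtain ⟨a, ha, b, hb, rfl⟩ := Finset.mem_mul.1 (mem_coe.1 hz)
        obtain ⟨a', ha', b', hb', rfl⟩ := Finset.mem_mul.1 (mem_coe.1 hz')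
        have h4 : uz (a * b) - t = uz (a' * b') - t := h
        exact uz_inj (mul_ne_zero (hA0 a ha) (hBp b hb).ne')
          (mul_ne_zero (hA0 a' ha') (hBp b' hb').ne') (sub_left_inj.1 h4)
    exact_mod_cast h3
  -- `|B B| ≤ |P + P|`
  have hPP : ((P + P).card : ℝ) ≤ R ^ 2 * P.card := by
    have h3 := Finset.pluennecke_ruzsa_inequality_nsmul_sub hP P 2
    rw [two_nsmul] at h3
    have h4 : (((P + P).card : ℚ≥0) : ℝ) ≤ (((((P - P).card : ℚ≥0) / P.card) ^ 2 * P.card : ℚ≥0) : ℝ) := by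
      exact_mod_cast h3
    push_cast at h4
    refine h4.trans ?_
    refine mul_le_mul_of_nonneg_right ?_ cP.le
    apply pow_le_pow_left₀ (by positivity)
    rw [div_le_iff₀ cP]
    exact h2
  have hBB : (((Pool.Agent.H384R3.SPk.prodset fun _ : Fin 2 => B).card : ℕ) : ℝ) ≤
      R ^ 2 * P.card := by
    refine le_trans ?_ hPP
    have h3 : (Pool.Agent.H384R3.SPk.prodset fun _ : Fin 2 => B).card ≤ (P + P).card := by
      apply Finset.card_le_card_of_injOn (fun z => uz z - t - t)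
      · intro z hz
        unfold Pool.Agent.H384R3.SPk.prodset at hz
        obtain ⟨f, hf, rfl⟩ := Finset.mem_image.1 (mem_coe.1 hz)
        rw [Fintype.mem_piFinset] at hf
        have h5 : uz (∏ i, f i) - t - t = (uz (f 0) - t) + (uz (f 1) - t) := by
          rw [Fin.prod_univ_two, uz_mul (hBp _ (hf 0)).ne' (hBp _ (hf 1)).ne']
          abel
        show uz (∏ i, f i) - t - t ∈ _
        rw [h5]
        exact mem_coe.2 (Finset.add_mem_add (hBt _ (hf 0)) (hBt _ (hf 1)))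
      · intro z hz z' hz' h
        unfold Pool.Agent.H384R3.SPk.prodset at hz hz'
        obtain ⟨f, hf, rfl⟩ := Finset.mem_image.1 (mem_coe.1 hz)
        obtain ⟨f', hf', rfl⟩ := Finset.mem_image.1 (mem_coe.1 hz')
        rw [Fintype.mem_piFinset] at hf hf'
        have h4 : uz (∏ i, f i) - t - t = uz (∏ i, f' i) - t - t := h
        exact uz_inj (Finset.prod_ne_zero_iff.2 fun i _ => (hBp _ (hf i)).ne')
          (Finset.prod_ne_zero_iff.2 fun i _ => (hBp _ (hf' i)).ne')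
          (sub_left_inj.1 (sub_left_inj.1 h4))
    exact_mod_cast h3
  have hmain := (Pool.Agent.Y849.LW.fin hk le_rfl hβ).1 A B
    (fun h => hA0 0 h rfl) hB hBp c
  refine hmain.trans ?_
  apply pow_le_pow_left₀ (by positivity)
  refine mul_le_mul_of_nonneg_right ?_ (Finset.sum_nonneg fun m _ => sq_nonneg _)
  unfold Tc
  refine mul_le_mul ?_ ?_ (by positivity) (by positivity)
  · rw [div_le_iff₀ cB]
    calc ((A * B).card : ℝ) ≤ R * P.card := hAB
      _ ≤ R * (2 * B.card) := mul_le_mul_of_nonneg_left hPB (by linarith)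
      _ = 2 * R * B.card := by ring
  · apply Real.rpow_le_rpow (by positivity) _ hβ0.le
    rw [div_le_iff₀ cB]
    calc _ ≤ R ^ 2 * P.card := hBB
      _ ≤ R ^ 2 * (2 * B.card) := mul_le_mul_of_nonneg_left hPB (by positivity)
      _ = 2 * R ^ 2 * B.card := by ring

/-- the weighted additive energy of a set that a Freiman homomorphism sends to a piece with few
products -/
theorem mul_piece_WE {k : ℕ} (hk : 2 ≤ k) {β : ℝ} (hβ : Pool.Agent.Y849.LW.Cond k 2 β)
    {K p : ℝ} (hK : 1 ≤ K) (D₀ : Finset (Additive ℚˣ)) (hD : Piece K p D₀) (S : Finset ℤ)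
    (ψ : ℤ → ℤ) (hinj : Set.InjOn ψ S)
    (hhom : ∀ x y : Fin k → ℤ, (∀ i, x i ∈ S) → (∀ i, y i ∈ S) →
      ∑ i, x i = ∑ i, y i → ∑ i, ψ (x i) = ∑ i, ψ (y i))
    (h0 : ∀ a ∈ S, ψ a ≠ 0) (hS : ∀ a ∈ S, uz (ψ a) ∈ D₀) (c : ℤ → ℝ) (hc : ∀ a, 0 ≤ c a) :
    WE k S (fun a => a) c ≤ (Tc (2 ^ 22 * K ^ 10) β * ∑ a ∈ S, c a ^ 2) ^ k := by
  classical
  refine (WE_mono k S (fun a => a) ψ c (fun a _ => hc a) hhom).trans ?_
  rw [WE_int]
  rcases S.eq_empty_or_nonempty with hSe | ⟨a₀, ha₀⟩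
  · subst hSe
    have : 2 * k ≠ 0 := by omega
    simp [this]
  set g : ℤ → ℤ := fun m => if h : ∃ a ∈ S, ψ a = m then h.choose else a₀ with hg
  have hgψ : ∀ a ∈ S, g (ψ a) = a := by
    intro a ha
    have h1 : ∃ a' ∈ S, ψ a' = ψ a := ⟨a, ha, rfl⟩
    have h2 : g (ψ a) = h1.choose := by rw [hg]; simp only; rw [dif_pos h1]
    rw [h2]
    exact hinj h1.choose_spec.1 ha h1.choose_spec.2
  have h1 := mul_piece hk hβ hK D₀ hD (S.image ψ)
    (by
      intro m hm
      obtain ⟨a, ha, rfl⟩ := mem_image.1 hm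
      exact h0 a ha)
    (by
      intro m hm
      obtain ⟨a, ha, rfl⟩ := mem_image.1 hm
      exact hS a ha) (fun m => (c (g m) : ℂ))
  rw [Finset.sum_image (fun a ha b hb h => hinj ha hb h)] at h1
  have e1 : ∑ a ∈ S, ‖((c (g (ψ a)) : ℝ) : ℂ)‖ ^ 2 = ∑ a ∈ S, c a ^ 2 := by
    refine Finset.sum_congr rfl fun a ha => ?_
    rw [hgψ a ha, Complex.norm_real, Real.norm_eq_abs, sq_abs]
  rw [e1] at h1
  refine le_trans (le_of_eq ?_) h1
  congr 1
  ext x
  congr 2
  rw [Finset.sum_image (fun a ha b hb h => hinj ha hb h)]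
  refine Finset.sum_congr rfl fun a ha => ?_
  rw [hgψ a ha]
  rfl

/-- The number of factorisations in a set that an injective multiplicative Freiman homomorphism
sends to a set `D₀` with few sums. -/
theorem add_piece {k : ℕ} {C₀ : ℝ} (hC₀ : 0 < C₀)
    (hdiv : ∀ e : ℝ, 0 < e → e ≤ 1 → ∀ A P : Fin k → Finset ℤ,
      (∀ i, (P i).Nonempty) → ∀ u : ℤ, u ≠ 0 →
      ((Pool.Agent.Y359.DB.Fac A u).card : ℝ) ≤ ∏ i, (((P i).card : ℝ) ^ e *
        ((3 + Real.log (P i).card) *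
          (((A i + P i).card : ℝ) / (P i).card)) ^ Real.exp (C₀ / e)))
    {b η ℓ K : ℝ} (hb : 0 < b) (_hη0 : 0 < η) (hηb : η ≤ b) (hℓ : 1 ≤ ℓ) (hK1 : 1 ≤ K)
    (hK2 : K ≤ Real.exp (2 * η * ℓ)) (hbig : 2 ^ 22 * (3 + 3 * b * ℓ) ≤ Real.exp (η * ℓ))
    {e : ℝ} (he0 : 0 < e) (he1 : e ≤ 1)
    (D₀ : Finset ℤ) (hD : Piece K (K * Real.exp (b * ℓ)) D₀) (S : Finset ℤ) (φ : ℤ → ℤ)
    (hinj : Set.InjOn φ S)
    (hhom : ∀ x y : Fin k → ℤ, (∀ i, x i ∈ S) → (∀ i, y i ∈ S) →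
      ∏ i, x i = ∏ i, y i → ∏ i, φ (x i) = ∏ i, φ (y i))
    (h0 : ∀ a ∈ S, φ a ≠ 0) (hS : ∀ a ∈ S, φ a ∈ D₀) (y : Fin k → ℤ) (hy : ∀ i, y i ∈ S) :
    (((Fintype.piFinset fun _ : Fin k => S).filter fun x => ∏ i, x i = ∏ i, y i).card : ℝ) ≤
      (Real.exp (e * (3 * b * ℓ) + Real.exp (C₀ / e) * (η * ℓ + 20 * η * ℓ))) ^ k := by
  classical
  obtain ⟨P, hPne, hPsum, -, hPc⟩ := hD
  set u : ℤ := ∏ i, φ (y i) with hu
  have hu0 : u ≠ 0 := Finset.prod_ne_zero_iff.2 fun i _ => h0 _ (hy i)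
  set E : ℝ := Real.exp (C₀ / e) with hE
  have hE1 : 1 ≤ E := Real.one_le_exp (by positivity)
  set Y : ℝ := Real.exp (e * (3 * b * ℓ) + E * (η * ℓ + 20 * η * ℓ)) with hY
  have h1 : (((Fintype.piFinset fun _ : Fin k => S).filter fun x =>
      ∏ i, x i = ∏ i, y i).card : ℝ) ≤ (Pool.Agent.Y359.DB.Fac (fun _ : Fin k => D₀) u).card := by
    have h2 : ((Fintype.piFinset fun _ : Fin k => S).filter fun x =>
        ∏ i, x i = ∏ i, y i).card ≤ (Pool.Agent.Y359.DB.Fac (fun _ : Fin k => D₀) u).card := by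
      apply Finset.card_le_card_of_injOn (fun x i => φ (x i))
      · intro x hx
        obtain ⟨h3, h4⟩ := mem_filter.1 (mem_coe.1 hx)
        rw [Fintype.mem_piFinset] at h3
        exact mem_coe.2 (Pool.Agent.Y359.DB.mem_Fac.2 ⟨fun i => hS _ (h3 i), hhom x y h3 hy h4⟩)
      · intro x hx x' hx' h
        obtain ⟨h3, -⟩ := mem_filter.1 (mem_coe.1 hx)
        obtain ⟨h4, -⟩ := mem_filter.1 (mem_coe.1 hx')
        rw [Fintype.mem_piFinset] at h3 h4
        ext i
        exact hinj (h3 i) (h4 i) (congrFun h i)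
    exact_mod_cast h2
  refine h1.trans ((hdiv e he0 he1 (fun _ => D₀) (fun _ => P) (fun _ => hPne) u hu0).trans ?_)
  have cP : (1 : ℝ) ≤ P.card := by exact_mod_cast hPne.card_pos
  have hbd : (P.card : ℝ) ^ e * ((3 + Real.log P.card) *
      (((D₀ + P).card : ℝ) / P.card)) ^ E ≤ Y := by
    have hPle : (P.card : ℝ) ≤ Real.exp (3 * b * ℓ) := by
      refine hPc.trans ?_
      calc K * Real.exp (b * ℓ) ≤ Real.exp (2 * η * ℓ) * Real.exp (b * ℓ) :=
            mul_le_mul_of_nonneg_right hK2 (Real.exp_pos _).le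
        _ = Real.exp ((2 * η + b) * ℓ) := by rw [← Real.exp_add]; congr 1; ring
        _ ≤ Real.exp (3 * b * ℓ) := by
            apply Real.exp_le_exp.2
            exact mul_le_mul_of_nonneg_right (by linarith) (by linarith)
    have hlogP : Real.log P.card ≤ 3 * b * ℓ := by
      rw [Real.log_le_iff_le_exp (by linarith)]
      exact hPle
    have hlogP0 : 0 ≤ Real.log P.card := Real.log_nonneg cP
    have h1 : (P.card : ℝ) ^ e ≤ Real.exp (e * (3 * b * ℓ)) := by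
      rw [Real.rpow_def_of_pos (by linarith)]
      apply Real.exp_le_exp.2
      rw [mul_comm]
      exact mul_le_mul_of_nonneg_left hlogP he0.le
    have h2 : (3 + Real.log P.card) * (((D₀ + P).card : ℝ) / P.card) ≤
        Real.exp (η * ℓ + 20 * η * ℓ) := by
      have h3 : ((D₀ + P).card : ℝ) / P.card ≤ 2 ^ 22 * K ^ 10 := by
        rw [div_le_iff₀ (by linarith)]
        exact hPsum
      calc (3 + Real.log P.card) * (((D₀ + P).card : ℝ) / P.card)
          ≤ (3 + 3 * b * ℓ) * (2 ^ 22 * K ^ 10) :=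
            mul_le_mul (by linarith) h3 (by positivity) (by positivity)
        _ = (2 ^ 22 * (3 + 3 * b * ℓ)) * K ^ 10 := by ring
        _ ≤ Real.exp (η * ℓ) * Real.exp (2 * η * ℓ) ^ 10 :=
            mul_le_mul hbig (pow_le_pow_left₀ (by linarith) hK2 10) (by positivity)
              (Real.exp_pos _).le
        _ = Real.exp (η * ℓ + 20 * η * ℓ) := by
            rw [← Real.exp_nat_mul, ← Real.exp_add]; congr 1; push_cast; ring
    have h3 : ((3 + Real.log P.card) * (((D₀ + P).card : ℝ) / P.card)) ^ E ≤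
        Real.exp (E * (η * ℓ + 20 * η * ℓ)) := by
      refine (Real.rpow_le_rpow (by positivity) h2 (by linarith)).trans (le_of_eq ?_)
      rw [← Real.exp_mul]
      congr 1
      ring
    calc _ ≤ Real.exp (e * (3 * b * ℓ)) * Real.exp (E * (η * ℓ + 20 * η * ℓ)) :=
          mul_le_mul h1 h3 (by positivity) (Real.exp_pos _).le
      _ = Y := by rw [hY, ← Real.exp_add]
  have hlogP := Real.log_nonneg cP
  calc ∏ _i : Fin k, ((P.card : ℝ) ^ e * ((3 + Real.log P.card) *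
        (((D₀ + P).card : ℝ) / P.card)) ^ E) ≤ ∏ _i : Fin k, Y := by
        apply Finset.prod_le_prod
        · intro i _
          positivity
        · intro i _
          exact hbd
    _ = Y ^ k := by simp

end Pool.Agent.H166.SPD
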