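import Pool.Agent.H166.SPD.Iter
import Pool.Graph.R_seed8.Y359.LE.Main

/-!
The parameters of the decomposition, and one extraction step in an arbitrary abelian group.
-/

set_option autoImplicit false

namespace Pool.Agent.H166.SPD

open Finset
open scoped Pointwise

/-- The numbers used in the decomposition of a set of `n` elements. -/
structure Par (b : ℝ) (J n : ℕ) (K s : ℝ) : Prop where
  K1 : 1 ≤ K
  K2 : K ≤ Real.exp (2 * (b / J) * Real.log n)
  log1 : 1 ≤ Real.log n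
  big : 2 ^ 22 * (3 + 3 * b * Real.log n) ≤ Real.exp (b / J * Real.log n)
  s0 : 0 < s
  count : ∀ m : ℝ, s * m ≤ n → m ≤ Real.exp (6 * (b / J) * Real.log n)
  step : ∀ {G : Type} [AddCommGroup G] [DecidableEq G] (S : Finset G), S.card ≤ n →
    (n : ℝ) ^ (2 * ((2 ^ J : ℕ) : ℝ) - b) < En S (2 ^ J) →
    ∃ D ⊆ S, Piece K (K * Real.exp (b * Real.log n)) D ∧ s ≤ D.card

theorem exists_par (b : ℝ) (hb : 0 < b) (J : ℕ) (hJ1' : 1 ≤ J) :
    ∃ t₀ : ℝ, 1 ≤ t₀ ∧ ∀ n : ℕ, t₀ ≤ Real.log n → ∃ K s : ℝ, Par b J n K s := by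
  have hJ1 : (1 : ℝ) ≤ J := by exact_mod_cast hJ1'
  set M : ℕ := 2 ^ J with hM
  have hM1 : 1 ≤ M := Nat.one_le_two_pow
  have hMr : (1 : ℝ) ≤ M := by exact_mod_cast hM1
  have hJM : (J : ℝ) ≤ M := by
    have : J < M := Nat.lt_two_pow_self
    exact_mod_cast this.le
  set η : ℝ := b / J with hη
  have hη0 : 0 < η := by positivity
  obtain ⟨t₀, ht₀, habs⟩ := Pool.Agent.Y359.LE.absorb M η b hMr hη0 hb
  refine ⟨t₀, ht₀, ?_⟩
  intro n hsmall
  set ℓ : ℝ := Real.log n with hℓ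
  have hℓ1 : 1 ≤ ℓ := ht₀.trans hsmall
  have hn0 : 0 < n := by
    rcases Nat.eq_zero_or_pos n with h | h
    · rw [hℓ, h] at hℓ1
      simp at hℓ1
      linarith
    · exact h
  have cA : (1 : ℝ) ≤ n := by exact_mod_cast hn0
  have cA0 : (0 : ℝ) < n := by linarith
  have hpow : ∀ x : ℝ, (n : ℝ) ^ x = Real.exp (x * ℓ) := fun x => by
    rw [Real.rpow_def_of_pos cA0]; congr 1; ring
  obtain ⟨habs1, habs2⟩ := habs ℓ hsmall
  set I : ℕ := M * (Nat.log 2 n + 1) with hI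
  have hIr : (I : ℝ) ≤ M * (2 * ℓ + 1) := by
    rw [hI]; push_cast
    have := Pool.Agent.Y359.LE.natlog_le n hn0
    exact mul_le_mul_of_nonneg_left (by linarith) (by linarith)
  set κ : ℝ := Real.exp (η * ℓ) with hκ
  have hκ1 : 1 ≤ κ := Real.one_le_exp (by positivity)
  set K : ℝ := κ * (2 * I) ^ 4 with hK
  have hI0 : (0 : ℝ) ≤ I := Nat.cast_nonneg _
  have hK2 : K ≤ Real.exp (2 * η * ℓ) := by
    have h1 : (2 * (I : ℝ)) ^ 4 ≤ Real.exp (η * ℓ) := by
      refine le_trans (pow_le_pow_left₀ (by positivity) ?_ 4) habs1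
      linarith
    calc K ≤ κ * Real.exp (η * ℓ) := mul_le_mul_of_nonneg_left h1 (by linarith)
      _ = Real.exp (2 * η * ℓ) := by rw [hκ, ← Real.exp_add]; congr 1; ring
  have hIpos : 1 ≤ I := by
    rw [hI]
    exact Nat.mul_pos hM1 (Nat.succ_pos _)
  have hI1 : (1 : ℝ) ≤ I := by exact_mod_cast hIpos
  have hK1 : 1 ≤ K := by
    have h1 : (1 : ℝ) ≤ (2 * I) ^ 4 := one_le_pow₀ (by linarith)
    rw [hK]
    nlinarith
  have hκJ : κ ^ J = Real.exp (b * ℓ) := by
    rw [hκ, ← Real.exp_nat_mul]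
    congr 1
    rw [hη]
    field_simp
  set s : ℝ := Real.exp ((1 - η) * ℓ) / (8 * K ^ 2) with hs
  have hs0 : 0 < s := by positivity
  refine ⟨K, s, ⟨hK1, hK2, hℓ1, habs2, hs0, ?_, ?_⟩⟩
  · intro m hm
    have h1 : s * m ≤ Real.exp ℓ := by
      rw [hℓ, Real.exp_log cA0]
      exact hm
    have h2 : (8 : ℝ) ≤ Real.exp (η * ℓ) := by
      refine le_trans ?_ habs1
      have h3 : (6 : ℝ) ≤ 2 * (M * (2 * ℓ + 1)) := by nlinarith
      calc (8 : ℝ) ≤ 6 ^ 4 := by norm_num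
        _ ≤ (2 * (M * (2 * ℓ + 1))) ^ 4 := pow_le_pow_left₀ (by norm_num) h3 4
    have h3 : (8 * K ^ 2) ≤ Real.exp (5 * η * ℓ) := by
      calc 8 * K ^ 2 ≤ Real.exp (η * ℓ) * Real.exp (2 * η * ℓ) ^ 2 :=
            mul_le_mul h2 (pow_le_pow_left₀ (by linarith) hK2 2) (by positivity) (by positivity)
        _ = Real.exp (5 * η * ℓ) := by
            rw [← Real.exp_nat_mul, ← Real.exp_add]; congr 1; push_cast; ring
    have h4 : Real.exp ((1 - η) * ℓ) * m ≤ Real.exp ((1 - η) * ℓ) * Real.exp (6 * η * ℓ) := by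
      calc Real.exp ((1 - η) * ℓ) * m = (s * m) * (8 * K ^ 2) := by
            rw [hs]; field_simp
        _ ≤ Real.exp ℓ * (8 * K ^ 2) := mul_le_mul_of_nonneg_right h1 (by positivity)
        _ ≤ Real.exp ℓ * Real.exp (5 * η * ℓ) :=
            mul_le_mul_of_nonneg_left h3 (Real.exp_pos _).le
        _ = _ := by rw [← Real.exp_add, ← Real.exp_add]; congr 1; ring
    exact le_of_mul_le_mul_left h4 (Real.exp_pos _)
  · intro G _ _ S hSn hF
    have hSne : S.Nonempty := by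
      by_contra h
      rw [Finset.not_nonempty_iff_eq_empty] at h
      have h1 : En S (2 ^ J) ≤ 0 := by
        rw [h]
        refine (En_le ∅ M).trans ?_
        have : 2 * M ≠ 0 := by omega
        simp [this]
      have h2 : (En S (2 ^ J) : ℝ) ≤ 0 := by exact_mod_cast h1
      have h3 : 0 < (n : ℝ) ^ (2 * ((2 ^ J : ℕ) : ℝ) - b) := Real.rpow_pos_of_pos cA0 _
      linarith
    have hBA' : (S.card : ℝ) ≤ n := by exact_mod_cast hSn
    have cB : (0 : ℝ) < S.card := by exact_mod_cast hSne.card_pos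
    have e1 : (n : ℝ) ^ (2 * M) = (n : ℝ) ^ (2 * (M : ℝ) - b) * κ ^ J := by
      rw [hκJ, ← Real.rpow_natCast, hpow, hpow, ← Real.exp_add]
      congr 1
      push_cast
      ring
    have h1 : (S.card : ℝ) ^ (2 * 2 ^ J) ≤ κ ^ J * En S (2 ^ J) := by
      calc (S.card : ℝ) ^ (2 * M) ≤ (n : ℝ) ^ (2 * M) := pow_le_pow_left₀ cB.le hBA' _
        _ = κ ^ J * (n : ℝ) ^ (2 * (M : ℝ) - b) := by rw [e1]; ring
        _ ≤ κ ^ J * En S M := mul_le_mul_of_nonneg_left hF.le (by positivity)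
    have hIlt : S.card ^ (2 ^ J) < 2 ^ I := by
      have h1 : S.card < 2 ^ (Nat.log 2 n + 1) :=
        lt_of_le_of_lt hSn (Nat.lt_pow_succ_log_self (by norm_num) _)
      rw [hI, mul_comm, pow_mul]
      exact Nat.pow_lt_pow_left h1 (by positivity)
    obtain ⟨D, hDB, hDc, hDP⟩ := extract S hSne J I hJ1' hIlt κ K hκ1 rfl h1
    rw [hκJ] at hDP
    refine ⟨D, hDB, hDP, ?_⟩
    -- `|S| ≥ n ^ (1 - η)`
    have h2 : Real.exp ((1 - η) * ℓ) ≤ S.card := by
      have h3 : (n : ℝ) ^ (2 * (M : ℝ) - b) ≤ (S.card : ℝ) ^ (2 * M) := by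
        refine hF.le.trans ?_
        exact_mod_cast En_le S M
      rw [hpow, ← Real.le_log_iff_exp_le (by positivity), Real.log_pow] at h3
      rw [← Real.le_log_iff_exp_le cB]
      push_cast at h3
      have h4 : b / (2 * M) ≤ η := by
        rw [hη]
        apply div_le_div_of_nonneg_left hb.le (by linarith)
        linarith
      have h5 : (1 - b / (2 * M)) * ℓ ≤ Real.log S.card := by
        have h6 : (2 * (M : ℝ)) * ((1 - b / (2 * M)) * ℓ) ≤ 2 * M * Real.log S.card := by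
          refine le_trans (le_of_eq ?_) h3
          field_simp
        exact le_of_mul_le_mul_left h6 (by linarith)
      have h6 : (1 - η) * ℓ ≤ (1 - b / (2 * M)) * ℓ :=
        mul_le_mul_of_nonneg_right (by linarith) (by linarith)
      linarith
    rw [hs, div_le_iff₀ (by positivity)]
    linarith

end Pool.Agent.H166.SPD
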