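import Pool.Agent.H166.SPD.Defs
import Pool.Agent.H166.SPD.Step
import Pool.Agent.H166.SPD.Pieces
import Pool.Agent.H166.SPD.Log

/-!
The decomposition of a finite set of positive integers.
-/

set_option autoImplicit false

namespace Pool.Agent.H166.SPD

open Finset
open scoped Pointwise

theorem addHom_tuple {k : ℕ} {B : Finset ℤ} {ψ : ℤ → ℤ}
    (h : IsAddFreimanHom k (B : Set ℤ) Set.univ ψ) (x y : Fin k → ℤ) (hx : ∀ i, x i ∈ B)
    (hy : ∀ i, y i ∈ B) (hxy : ∑ i, x i = ∑ i, y i) : ∑ i, ψ (x i) = ∑ i, ψ (y i) := by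
  have h1 := h.map_sum_eq_map_sum (s := (Finset.univ : Finset (Fin k)).val.map x)
    (t := (Finset.univ : Finset (Fin k)).val.map y)
    (by
      intro z hz
      obtain ⟨i, -, rfl⟩ := Multiset.mem_map.1 hz
      exact hx i)
    (by
      intro z hz
      obtain ⟨i, -, rfl⟩ := Multiset.mem_map.1 hz
      exact hy i)
    (by simp) (by simp) hxy
  rw [Multiset.map_map, Multiset.map_map] at h1
  exact h1

theorem mulHom_tuple {k : ℕ} {B : Finset ℤ} {φ : ℤ → ℤ} {T : Set ℤ}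
    (h : IsMulFreimanHom k (B : Set ℤ) T φ) (x y : Fin k → ℤ) (hx : ∀ i, x i ∈ B)
    (hy : ∀ i, y i ∈ B) (hxy : ∏ i, x i = ∏ i, y i) : ∏ i, φ (x i) = ∏ i, φ (y i) := by
  have h1 := h.map_prod_eq_map_prod (s := (Finset.univ : Finset (Fin k)).val.map x)
    (t := (Finset.univ : Finset (Fin k)).val.map y)
    (by
      intro z hz
      obtain ⟨i, -, rfl⟩ := Multiset.mem_map.1 hz
      exact hx i)
    (by
      intro z hz
      obtain ⟨i, -, rfl⟩ := Multiset.mem_map.1 hz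
      exact hy i)
    (by simp) (by simp) hxy
  rw [Multiset.map_map, Multiset.map_map] at h1
  exact h1

theorem AddEn_eq (m : ℕ) (S : Finset ℤ) : AddEn m S = En S m := rfl

theorem MulEn_eq (m : ℕ) (S : Finset ℤ) : MulEn m S = En ((S.erase 0).image uz) m := by
  classical
  unfold MulEn En
  have hne : ∀ z ∈ S.erase 0, z ≠ 0 := fun z hz => (Finset.mem_erase.1 hz).1
  apply Finset.card_bij (fun p _ => ((fun i => uz (p.1 i)), (fun i => uz (p.2 i))))
  · rintro ⟨x, y⟩ h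
    simp only [mem_filter, mem_product, Fintype.mem_piFinset] at h ⊢
    obtain ⟨⟨h1, h2⟩, h3⟩ := h
    exact ⟨⟨fun i => mem_image_of_mem _ (h1 i), fun i => mem_image_of_mem _ (h2 i)⟩,
      (uz_prod_iff x y (fun i => hne _ (h1 i)) (fun i => hne _ (h2 i))).1 h3⟩
  · rintro ⟨x, y⟩ h ⟨x', y'⟩ h' heq
    simp only [mem_filter, mem_product, Fintype.mem_piFinset] at h h'
    obtain ⟨⟨h1, h2⟩, -⟩ := h
    obtain ⟨⟨h3, h4⟩, -⟩ := h'
    simp only [Prod.mk.injEq] at heq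
    obtain ⟨e1, e2⟩ := heq
    have f1 : x = x' := funext fun i => uz_inj (hne _ (h1 i)) (hne _ (h3 i)) (congrFun e1 i)
    have f2 : y = y' := funext fun i => uz_inj (hne _ (h2 i)) (hne _ (h4 i)) (congrFun e2 i)
    rw [f1, f2]
  · rintro ⟨x, y⟩ h
    simp only [mem_filter, mem_product, Fintype.mem_piFinset] at h
    obtain ⟨⟨h1, h2⟩, h3⟩ := h
    have g1 : ∀ i, ∃ z ∈ S.erase 0, uz z = x i := fun i => mem_image.1 (h1 i)
    have g2 : ∀ i, ∃ z ∈ S.erase 0, uz z = y i := fun i => mem_image.1 (h2 i)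
    choose x' hx1 hx2 using g1
    choose y' hy1 hy2 using g2
    refine ⟨(x', y'), ?_, ?_⟩
    · simp only [mem_filter, mem_product, Fintype.mem_piFinset]
      refine ⟨⟨hx1, hy1⟩, (uz_prod_iff x' y' (fun i => hne _ (hx1 i)) (fun i => hne _ (hy1 i))).2 ?_⟩
      rw [Finset.sum_congr rfl fun i _ => hx2 i, Finset.sum_congr rfl fun i _ => hy2 i]
      exact h3
    · simp only [Prod.mk.injEq]
      exact ⟨funext hx2, funext hy2⟩

theorem En_empty {G : Type*} [AddCommGroup G] [DecidableEq G] (m : ℕ) (hm : 1 ≤ m) :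
    En (∅ : Finset G) m = 0 := by
  have h1 := En_le (∅ : Finset G) m
  have h2 : 2 * m ≠ 0 := by omega
  simpa [h2] using h1

theorem grows_empty (k m : ℕ) (hm : 1 ≤ m) (X : ℝ) (hX : 0 ≤ X) : Grows k m X ∅ := by
  constructor
  · intro φ _ _
    rw [AddEn_eq, Finset.image_empty, En_empty m hm]
    simpa using hX
  · intro ψ _ _
    rw [MulEn_eq]
    simp only [Finset.image_empty, Finset.erase_empty]
    rw [En_empty m hm]
    simpa using hX

/-- the energy of order `m ≥ M` from the energy of order `M` -/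
theorem En_up {G : Type*} [AddCommGroup G] [DecidableEq G] (S : Finset G) (n M m : ℕ) (b : ℝ)
    (hn : 0 < n) (hM : M ≤ m) (hS : S.card ≤ n)
    (h : (En S M : ℝ) ≤ (n : ℝ) ^ (2 * (M : ℝ) - b)) :
    (En S m : ℝ) ≤ (n : ℝ) ^ (2 * (m : ℝ) - b) := by
  obtain ⟨j, rfl⟩ := Nat.exists_eq_add_of_le' hM
  have cn : (0 : ℝ) < n := by exact_mod_cast hn
  have h1 : (En S (j + M) : ℝ) ≤ (S.card : ℝ) ^ (2 * j) * En S M := by
    exact_mod_cast En_young' S j M
  have hS' : (S.card : ℝ) ≤ n := by exact_mod_cast hS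
  refine h1.trans ?_
  calc (S.card : ℝ) ^ (2 * j) * En S M
      ≤ (n : ℝ) ^ (2 * j) * (n : ℝ) ^ (2 * (M : ℝ) - b) :=
        mul_le_mul (pow_le_pow_left₀ (by positivity) hS' _) h (by positivity) (by positivity)
    _ = (n : ℝ) ^ (2 * ((j + M : ℕ) : ℝ) - b) := by
        rw [← Real.rpow_natCast, ← Real.rpow_add cn]
        congr 1
        push_cast
        ring

theorem grows_up (k n M m : ℕ) (b : ℝ) (B : Finset ℤ) (hn : 0 < n) (hM : M ≤ m)
    (hB : B.card ≤ n) (h : Grows k M ((n : ℝ) ^ (2 * (M : ℝ) - b)) B) :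
    Grows k m ((n : ℝ) ^ (2 * (m : ℝ) - b)) B := by
  constructor
  · intro φ h1 h2
    exact En_up (B.image φ) n M m b hn hM (Finset.card_image_le.trans hB) (h.1 φ h1 h2)
  · intro ψ h1 h2
    have h3 := h.2 ψ h1 h2
    rw [MulEn_eq] at h3 ⊢
    refine En_up _ n M m b hn hM ?_ h3
    exact (Finset.card_image_le.trans (Finset.card_le_card (Finset.erase_subset _ _))).trans
      (Finset.card_image_le.trans hB)

/-- a piece with few sums in some multiplicative model -/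
def QA (k : ℕ) (K p : ℝ) (D : Finset ℤ) : Prop :=
  ∃ (φ : ℤ → ℤ) (D₀ : Finset ℤ), Set.InjOn φ (D : Set ℤ) ∧
    (∀ x y : Fin k → ℤ, (∀ i, x i ∈ D) → (∀ i, y i ∈ D) →
      ∏ i, x i = ∏ i, y i → ∏ i, φ (x i) = ∏ i, φ (y i)) ∧
    (∀ a ∈ D, φ a ≠ 0) ∧ (∀ a ∈ D, φ a ∈ D₀) ∧ Piece K p D₀

/-- a piece with few products in some additive model -/
def QM (k : ℕ) (K p : ℝ) (D : Finset ℤ) : Prop :=
  ∃ (ψ : ℤ → ℤ) (D₀ : Finset (Additive ℚˣ)), Set.InjOn ψ (D : Set ℤ) ∧
    (∀ x y : Fin k → ℤ, (∀ i, x i ∈ D) → (∀ i, y i ∈ D) →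
      ∑ i, x i = ∑ i, y i → ∑ i, ψ (x i) = ∑ i, ψ (y i)) ∧
    (∀ a ∈ D, ψ a ≠ 0) ∧ (∀ a ∈ D, uz (ψ a) ∈ D₀) ∧ Piece K p D₀

/-- one step of the decomposition -/
theorem step {b : ℝ} {J n : ℕ} {K s : ℝ} (hp : Par b J n K s) (k : ℕ) (B : Finset ℤ)
    (hB : B.card ≤ n) (h : ¬ Grows k (2 ^ J) ((n : ℝ) ^ (2 * ((2 ^ J : ℕ) : ℝ) - b)) B) :
    ∃ D ⊆ B, (QA k K (K * Real.exp (b * Real.log n)) D ∨
      QM k K (K * Real.exp (b * Real.log n)) D) ∧ s ≤ D.card := by
  classical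
  unfold Grows at h
  rw [not_and_or] at h
  rcases h with h | h
  · push Not at h
    obtain ⟨φ, h1, h2, h3⟩ := h
    rw [AddEn_eq] at h3
    obtain ⟨D₀, hD₀, hP, hs⟩ := hp.step (B.image φ) (Finset.card_image_le.trans hB) h3
    refine ⟨B.filter fun a => φ a ∈ D₀, Finset.filter_subset _ _, Or.inl ?_, ?_⟩
    · refine ⟨φ, D₀, h1.mono ?_, ?_, ?_, ?_, hP⟩
      · exact_mod_cast Finset.filter_subset _ _
      · intro x y hx hy
        exact mulHom_tuple h2 x y (fun i => (mem_filter.1 (hx i)).1)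
          (fun i => (mem_filter.1 (hy i)).1)
      · intro a ha
        exact h2.mapsTo (mem_coe.2 (mem_filter.1 ha).1)
      · intro a ha
        exact (mem_filter.1 ha).2
    · refine hs.trans ?_
      have h4 : D₀ ⊆ (B.filter fun a => φ a ∈ D₀).image φ := by
        intro d hd
        obtain ⟨a, ha, rfl⟩ := mem_image.1 (hD₀ hd)
        exact mem_image_of_mem _ (mem_filter.2 ⟨ha, hd⟩)
      exact_mod_cast (Finset.card_le_card h4).trans Finset.card_image_le
  · push Not at h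
    obtain ⟨ψ, h1, h2, h3⟩ := h
    rw [MulEn_eq] at h3
    obtain ⟨D₀, hD₀, hP, hs⟩ := hp.step (((B.image ψ).erase 0).image uz)
      ((Finset.card_image_le.trans (Finset.card_le_card (Finset.erase_subset _ _))).trans
      (Finset.card_image_le.trans hB)) h3
    refine ⟨B.filter fun a => ψ a ≠ 0 ∧ uz (ψ a) ∈ D₀, Finset.filter_subset _ _, Or.inr ?_, ?_⟩
    · refine ⟨ψ, D₀, h1.mono ?_, ?_, ?_, ?_, hP⟩
      · exact_mod_cast Finset.filter_subset _ _
      · intro x y hx hy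
        exact addHom_tuple h2 x y (fun i => (mem_filter.1 (hx i)).1)
          (fun i => (mem_filter.1 (hy i)).1)
      · intro a ha
        exact (mem_filter.1 ha).2.1
      · intro a ha
        exact (mem_filter.1 ha).2.2
    · refine hs.trans ?_
      have h4 : D₀ ⊆ (B.filter fun a => ψ a ≠ 0 ∧ uz (ψ a) ∈ D₀).image fun a => uz (ψ a) := by
        intro d hd
        obtain ⟨z, hz, hzd⟩ := mem_image.1 (hD₀ hd)
        obtain ⟨hz0, hz1⟩ := Finset.mem_erase.1 hz
        obtain ⟨a, ha, rfl⟩ := mem_image.1 hz1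
        exact mem_image.2 ⟨a, mem_filter.2 ⟨ha, hz0, hzd ▸ hd⟩, hzd⟩
      exact_mod_cast (Finset.card_le_card h4).trans Finset.card_image_le

end Pool.Agent.H166.SPD
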