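import Pool.Agent.H166.SPD.Decomp

/-!
The reduction of the sum-product estimates to the sets that grow in all models.
-/

set_option autoImplicit false

namespace Pool.Agent.H166.SPD

open Finset
open scoped Pointwise

theorem cs_fiber {α β : Type*} [DecidableEq β] (T : Finset α) (f : α → β) (Z : Finset β)
    (h : ∀ x ∈ T, f x ∈ Z) :
    (T.card : ℝ) ^ 2 ≤ Z.card * ∑ x ∈ T, ∑ y ∈ T, (if f x = f y then (1 : ℝ) else 0) := by
  have h1 : (T.card : ℝ) = ∑ z ∈ Z, ((T.filter fun x => f x = z).card : ℝ) := by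
    exact_mod_cast Finset.card_eq_sum_card_fiberwise h
  have h2 : ∑ x ∈ T, ∑ y ∈ T, (if f x = f y then (1 : ℝ) else 0) =
      ∑ z ∈ Z, ((T.filter fun x => f x = z).card : ℝ) ^ 2 := by
    have h3 : ∀ x ∈ T, ∑ y ∈ T, (if f x = f y then (1 : ℝ) else 0) =
        ((T.filter fun y => f y = f x).card : ℝ) := by
      intro x _
      rw [← Finset.sum_filter, Finset.sum_const, nsmul_eq_mul, mul_one]
      congr 2
      ext y
      simp only [mem_filter]
      exact and_congr_right fun _ => eq_comm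
    rw [Finset.sum_congr rfl h3, ← Finset.sum_fiberwise_of_maps_to h]
    refine Finset.sum_congr rfl fun z _ => ?_
    rw [Finset.sum_congr rfl (g := fun _ => ((T.filter fun y => f y = z).card : ℝ))]
    · rw [Finset.sum_const, nsmul_eq_mul, sq]
    · intro x hx
      rw [(mem_filter.1 hx).2]
  rw [h2, h1]
  exact sq_sum_le_card_mul_sum_sq

theorem card_mul_ge (C : Finset ℤ) :
    (C.card : ℝ) ^ 4 ≤ ((C * C).card : ℝ) * MulW 2 C fun _ => 1 := by
  have h := cs_fiber (Fintype.piFinset fun _ : Fin 2 => C) (fun x => ∏ i, x i) (C * C)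
    (by
      intro x hx
      rw [Fintype.mem_piFinset] at hx
      simp only [Fin.prod_univ_two]
      exact Finset.mul_mem_mul (hx 0) (hx 1))
  rw [Fintype.card_piFinset] at h
  simp only [Finset.prod_const, Finset.card_univ, Fintype.card_fin] at h
  unfold MulW
  simp only [Finset.prod_const_one, mul_one]
  refine le_trans (le_of_eq ?_) h
  push_cast
  ring

theorem card_add_ge (C : Finset ℤ) :
    (C.card : ℝ) ^ 4 ≤ ((C + C).card : ℝ) * AddW 2 C fun _ => 1 := by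
  have h := cs_fiber (Fintype.piFinset fun _ : Fin 2 => C) (fun x => ∑ i, x i) (C + C)
    (by
      intro x hx
      rw [Fintype.mem_piFinset] at hx
      simp only [Fin.sum_univ_two]
      exact Finset.add_mem_add (hx 0) (hx 1))
  rw [Fintype.card_piFinset] at h
  simp only [Finset.prod_const, Finset.card_univ, Fintype.card_fin] at h
  unfold AddW
  simp only [Finset.prod_const_one, mul_one]
  refine le_trans (le_of_eq ?_) h
  push_cast
  ring

/-- a set with small energy has many products (sums) -/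
theorem energy_bound {κ ε K x y n : ℝ} (hn : 1 ≤ n) (hK : 0 < K) (hx : n ≤ 3 * x)
    (hκ : κ = 2 - 2 * ε) (h : x ^ 4 ≤ y * (K * n ^ ε * x) ^ 2) :
    1 / (9 * K ^ 2) * n ^ κ ≤ y := by
  have hx0 : 0 < x := by linarith
  have hn0 : 0 < n := by linarith
  have h1 : x ^ 2 ≤ y * (K ^ 2 * n ^ (2 * ε)) := by
    have h2 : x ^ 2 * x ^ 2 ≤ (y * (K ^ 2 * n ^ (2 * ε))) * x ^ 2 := by
      calc x ^ 2 * x ^ 2 = x ^ 4 := by ring
        _ ≤ y * (K * n ^ ε * x) ^ 2 := h
        _ = (y * (K ^ 2 * (n ^ ε) ^ 2)) * x ^ 2 := by ring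
        _ = _ := by
            rw [← Real.rpow_natCast (n ^ ε) 2, ← Real.rpow_mul hn0.le]
            congr 4
            push_cast
            ring
    exact le_of_mul_le_mul_right h2 (by positivity)
  have h3 : n ^ κ * n ^ (2 * ε) = n ^ 2 := by
    rw [← Real.rpow_add hn0, ← Real.rpow_natCast, hκ]
    congr 1
    push_cast
    ring
  have h4 : n ^ 2 ≤ 9 * x ^ 2 := by nlinarith
  have hp : 0 < n ^ (2 * ε) := Real.rpow_pos_of_pos hn0 _
  have h5 : (1 / (9 * K ^ 2) * n ^ κ) * (9 * K ^ 2 * n ^ (2 * ε)) ≤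
      y * (9 * K ^ 2 * n ^ (2 * ε)) := by
    calc (1 / (9 * K ^ 2) * n ^ κ) * (9 * K ^ 2 * n ^ (2 * ε)) = n ^ κ * n ^ (2 * ε) := by
          field_simp
      _ = n ^ 2 := h3
      _ ≤ 9 * x ^ 2 := h4
      _ ≤ 9 * (y * (K ^ 2 * n ^ (2 * ε))) := by linarith
      _ = _ := by ring
  exact le_of_mul_le_mul_right h5 (by positivity)

theorem one_le_max (A : Finset ℤ) (hA : A.Nonempty) :
    (1 : ℝ) ≤ max ((A + A).card : ℝ) ((A * A).card : ℝ) := by
  refine le_max_of_le_left ?_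
  exact_mod_cast (Finset.Nonempty.card_pos (hA.add hA))

theorem max_mono {A B : Finset ℤ} (h : B ⊆ A) :
    max ((B + B).card : ℝ) ((B * B).card : ℝ) ≤ max ((A + A).card : ℝ) ((A * A).card : ℝ) := by
  apply max_le_max
  · exact_mod_cast Finset.card_le_card (Finset.add_subset_add h h)
  · exact_mod_cast Finset.card_le_card (Finset.mul_subset_mul h h)

theorem rpow_third {κ x n : ℝ} (hκ0 : 0 ≤ κ) (hκ : κ ≤ 2) (hn : 1 ≤ n) (hx : n ≤ 3 * x) :
    1 / 9 * n ^ κ ≤ x ^ κ := by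
  have h1 : (n / 3) ^ κ ≤ x ^ κ := Real.rpow_le_rpow (by linarith) (by linarith) hκ0
  refine le_trans ?_ h1
  rw [Real.div_rpow (by linarith) (by norm_num)]
  have h2 : (3 : ℝ) ^ κ ≤ 9 := by
    calc (3 : ℝ) ^ κ ≤ (3 : ℝ) ^ (2 : ℝ) := Real.rpow_le_rpow_of_exponent_le (by norm_num) hκ
      _ = 9 := by norm_num
  have h3 : (0 : ℝ) < (3 : ℝ) ^ κ := Real.rpow_pos_of_pos (by norm_num) _
  have h4 : 0 < n ^ κ := Real.rpow_pos_of_pos (by linarith) _
  rw [one_div, inv_mul_eq_div]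
  exact div_le_div_of_nonneg_left h4.le h3 h2

theorem rpow_small {κ N n : ℝ} (hκ : κ ≤ 2) (hn : 1 ≤ n) (hN : n ≤ N) :
    1 / N ^ 2 * n ^ κ ≤ 1 := by
  have h1 : n ^ κ ≤ N ^ 2 := by
    calc n ^ κ ≤ n ^ (2 : ℝ) := Real.rpow_le_rpow_of_exponent_le hn hκ
      _ = n ^ 2 := by rw [← Real.rpow_natCast]; norm_num
      _ ≤ N ^ 2 := pow_le_pow_left₀ (by linarith) hN 2
  rw [one_div, inv_mul_eq_div, div_le_one (by nlinarith)]
  exact h1

theorem reduce_pos (κ : ℝ) (hκ0 : 0 < κ) (hκ : κ < 2) (b₀ : ℝ) (hb₀ : 0 < b₀)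
    (h : ∀ M : ℕ, 1 ≤ M → SumProduct κ (Superpoly b₀ M)) :
    SumProduct κ fun A => ∀ a ∈ A, 0 < a := by
  classical
  set ε : ℝ := (2 - κ) / 2 with hε
  have hε0 : 0 < ε := by rw [hε]; linarith
  obtain ⟨M₁, hM₁, K, hK, hdec⟩ := decomp 2 le_rfl ε (b₀ + 1) hε0 (by linarith)
  set M : ℕ := max M₁ ⌈b₀⌉₊ with hM
  have hMb : b₀ ≤ M := (Nat.le_ceil b₀).trans (by exact_mod_cast le_max_right _ _)
  obtain ⟨c₁, hc₁, hB⟩ := h M (hM₁.trans (le_max_left _ _))
  set N : ℝ := 3 ^ (2 * M) with hN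
  set c : ℝ := min (c₁ * (1 / 9)) (min (1 / (9 * K ^ 2)) (1 / N ^ 2)) with hc
  refine ⟨c, by positivity, ?_⟩
  intro A hA hpos
  set n : ℕ := A.card with hn
  have hn0 : 0 < n := hA.card_pos
  have cn : (1 : ℝ) ≤ n := by exact_mod_cast hn0
  have hnκ : 0 < (n : ℝ) ^ κ := Real.rpow_pos_of_pos (by linarith) _
  obtain ⟨B, C, D, hu, -, -, -, -, -, hBG, hCW, hDW⟩ := hdec A
  have hBA : B ⊆ A := by rw [← hu]; intro a ha; simp [ha]
  have hCA : C ⊆ A := by rw [← hu]; intro a ha; simp [ha]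
  have hDA : D ⊆ A := by rw [← hu]; intro a ha; simp [ha]
  have hcard : n ≤ B.card + C.card + D.card := by
    rw [hn, ← hu]
    exact (Finset.card_union_le _ _).trans (Nat.add_le_add_right (Finset.card_union_le _ _) _)
  rcases le_or_gt (n : ℝ) N with hsmall | hlarge
  · calc c * (n : ℝ) ^ κ ≤ 1 / N ^ 2 * (n : ℝ) ^ κ :=
          mul_le_mul_of_nonneg_right ((min_le_right _ _).trans (min_le_right _ _)) hnκ.le
      _ ≤ 1 := rpow_small hκ.le cn hsmall
      _ ≤ _ := one_le_max A hA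
  have hthree : n ≤ 3 * B.card ∨ n ≤ 3 * C.card ∨ n ≤ 3 * D.card := by omega
  rcases hthree with h3 | h3 | h3
  · -- the part that grows
    have h3' : (n : ℝ) ≤ 3 * B.card := by exact_mod_cast h3
    have hB0 : 0 < B.card := by omega
    have cB : (0 : ℝ) < B.card := by exact_mod_cast hB0
    have hsup : Superpoly b₀ M B := by
      refine ⟨fun a ha => hpos a (hBA ha), ?_⟩
      intro m hm
      apply grows_up 2 B.card M m b₀ B hB0 hm le_rfl
      have h4 := hBG M (le_max_left _ _)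
      have h5 : (n : ℝ) ^ (2 * (M : ℝ) - (b₀ + 1)) ≤ (B.card : ℝ) ^ (2 * (M : ℝ) - b₀) := by
        have h6 : ((n : ℝ) / 3) ^ (2 * (M : ℝ) - b₀) ≤ (B.card : ℝ) ^ (2 * (M : ℝ) - b₀) :=
          Real.rpow_le_rpow (by linarith) (by linarith) (by linarith)
        refine le_trans ?_ h6
        rw [Real.div_rpow (by linarith) (by norm_num), le_div_iff₀ (by positivity)]
        have h7 : (3 : ℝ) ^ (2 * (M : ℝ) - b₀) ≤ N := by
          rw [hN, ← Real.rpow_natCast]
          apply Real.rpow_le_rpow_of_exponent_le (by norm_num)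
          push_cast
          linarith
        have h8 : (n : ℝ) ^ (2 * (M : ℝ) - b₀) = (n : ℝ) ^ (2 * (M : ℝ) - (b₀ + 1)) * n := by
          rw [show 2 * (M : ℝ) - b₀ = (2 * (M : ℝ) - (b₀ + 1)) + 1 by ring,
            Real.rpow_add_one (by linarith)]
        rw [h8]
        exact mul_le_mul_of_nonneg_left (h7.trans hlarge.le) (by positivity)
      exact ⟨fun φ g1 g2 => (h4.1 φ g1 g2).trans h5, fun ψ g1 g2 => (h4.2 ψ g1 g2).trans h5⟩
    have h9 := hB B (Finset.card_pos.1 hB0) hsup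
    calc c * (n : ℝ) ^ κ ≤ c₁ * (1 / 9) * (n : ℝ) ^ κ :=
          mul_le_mul_of_nonneg_right (min_le_left _ _) hnκ.le
      _ = c₁ * (1 / 9 * (n : ℝ) ^ κ) := by ring
      _ ≤ c₁ * (B.card : ℝ) ^ κ :=
          mul_le_mul_of_nonneg_left (rpow_third hκ0.le hκ.le cn h3') hc₁.le
      _ ≤ _ := h9
      _ ≤ _ := max_mono hBA
  · have h3' : (n : ℝ) ≤ 3 * C.card := by exact_mod_cast h3
    have h4 := hCW (fun _ => 1) (fun _ => zero_le_one)
    simp only [one_pow, Finset.sum_const, nsmul_eq_mul, mul_one] at h4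
    have h5 : (C.card : ℝ) ^ 4 ≤ ((C * C).card : ℝ) * (K * (n : ℝ) ^ ε * C.card) ^ 2 :=
      (card_mul_ge C).trans (mul_le_mul_of_nonneg_left h4 (Nat.cast_nonneg _))
    have h6 := energy_bound cn hK h3' (show κ = 2 - 2 * ε by rw [hε]; ring) h5
    calc c * (n : ℝ) ^ κ ≤ 1 / (9 * K ^ 2) * (n : ℝ) ^ κ :=
          mul_le_mul_of_nonneg_right ((min_le_right _ _).trans (min_le_left _ _)) hnκ.le
      _ ≤ _ := h6
      _ ≤ max ((C + C).card : ℝ) ((C * C).card : ℝ) := le_max_right _ _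
      _ ≤ _ := max_mono hCA
  · have h3' : (n : ℝ) ≤ 3 * D.card := by exact_mod_cast h3
    have h4 := hDW (fun _ => 1) (fun _ => zero_le_one)
    simp only [one_pow, Finset.sum_const, nsmul_eq_mul, mul_one] at h4
    have h5 : (D.card : ℝ) ^ 4 ≤ ((D + D).card : ℝ) * (K * (n : ℝ) ^ ε * D.card) ^ 2 :=
      (card_add_ge D).trans (mul_le_mul_of_nonneg_left h4 (Nat.cast_nonneg _))
    have h6 := energy_bound cn hK h3' (show κ = 2 - 2 * ε by rw [hε]; ring) h5
    calc c * (n : ℝ) ^ κ ≤ 1 / (9 * K ^ 2) * (n : ℝ) ^ κ :=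
          mul_le_mul_of_nonneg_right ((min_le_right _ _).trans (min_le_left _ _)) hnκ.le
      _ ≤ _ := h6
      _ ≤ max ((D + D).card : ℝ) ((D * D).card : ℝ) := le_max_left _ _
      _ ≤ _ := max_mono hDA

theorem reduce_all (κ : ℝ) (hκ0 : 0 < κ) (hκ : κ < 2)
    (h : SumProduct κ fun A => ∀ a ∈ A, 0 < a) : SumProduct κ fun _ => True := by
  classical
  obtain ⟨c₁, hc₁, hpos⟩ := h
  set c : ℝ := min (c₁ * (1 / 9)) (1 / 3 ^ 2) with hc
  refine ⟨c, by positivity, ?_⟩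
  intro A hA _
  set n : ℕ := A.card with hn
  have hn0 : 0 < n := hA.card_pos
  have cn : (1 : ℝ) ≤ n := by exact_mod_cast hn0
  have hnκ : 0 < (n : ℝ) ^ κ := Real.rpow_pos_of_pos (by linarith) _
  rcases le_or_gt n 3 with hsmall | hlarge
  · calc c * (n : ℝ) ^ κ ≤ 1 / 3 ^ 2 * (n : ℝ) ^ κ :=
          mul_le_mul_of_nonneg_right (min_le_right _ _) hnκ.le
      _ ≤ 1 := rpow_small hκ.le cn (by exact_mod_cast hsmall)
      _ ≤ _ := one_le_max A hA
  set P : Finset ℤ := A.filter fun a => 0 < a with hP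
  set Q : Finset ℤ := A.filter fun a => a < 0 with hQ
  have hcard : n ≤ P.card + Q.card + 1 := by
    have h1 : A ⊆ P ∪ Q ∪ {0} := by
      intro a ha
      rcases lt_trichotomy a 0 with h | h | h
      · exact mem_union_left _ (mem_union_right _ (mem_filter.2 ⟨ha, h⟩))
      · exact mem_union_right _ (mem_singleton.2 h)
      · exact mem_union_left _ (mem_union_left _ (mem_filter.2 ⟨ha, h⟩))
    have h2 := Finset.card_le_card h1
    have h3 := Finset.card_union_le (P ∪ Q) {0}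
    have h4 := Finset.card_union_le P Q
    rw [Finset.card_singleton] at h3
    omega
  have htwo : n ≤ 3 * P.card ∨ n ≤ 3 * Q.card := by omega
  rcases htwo with h3 | h3
  · have h3' : (n : ℝ) ≤ 3 * P.card := by exact_mod_cast h3
    have h4 := hpos P (Finset.card_pos.1 (by omega)) (fun a ha => (mem_filter.1 ha).2)
    calc c * (n : ℝ) ^ κ ≤ c₁ * (1 / 9) * (n : ℝ) ^ κ :=
          mul_le_mul_of_nonneg_right (min_le_left _ _) hnκ.le
      _ = c₁ * (1 / 9 * (n : ℝ) ^ κ) := by ring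
      _ ≤ c₁ * (P.card : ℝ) ^ κ :=
          mul_le_mul_of_nonneg_left (rpow_third hκ0.le hκ.le cn h3') hc₁.le
      _ ≤ _ := h4
      _ ≤ _ := max_mono (Finset.filter_subset _ _)
  · have h3' : (n : ℝ) ≤ 3 * Q.card := by exact_mod_cast h3
    have hcQ : (-Q).card = Q.card := Finset.card_neg Q
    have h4 := hpos (-Q) (Finset.card_pos.1 (by rw [hcQ]; omega)) (fun a ha => by
      rw [Finset.mem_neg'] at ha
      have := (mem_filter.1 ha).2
      linarith)
    rw [hcQ] at h4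
    have h5 : -Q + -Q = -(Q + Q) := by
      ext z
      simp only [Finset.mem_add, Finset.mem_neg']
      constructor
      · rintro ⟨x, hx, y, hy, rfl⟩
        exact ⟨-x, hx, -y, hy, by ring⟩
      · rintro ⟨x, hx, y, hy, h⟩
        exact ⟨-x, by rwa [neg_neg], -y, by rwa [neg_neg], by linarith⟩
    have h6 : -Q * -Q = Q * Q := by
      ext z
      simp only [Finset.mem_mul, Finset.mem_neg']
      constructor
      · rintro ⟨x, hx, y, hy, rfl⟩
        exact ⟨-x, hx, -y, hy, by ring⟩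
      · rintro ⟨x, hx, y, hy, h⟩
        exact ⟨-x, by rwa [neg_neg], -y, by rwa [neg_neg], by rw [← h]; ring⟩
    rw [h5, h6, Finset.card_neg] at h4
    calc c * (n : ℝ) ^ κ ≤ c₁ * (1 / 9) * (n : ℝ) ^ κ :=
          mul_le_mul_of_nonneg_right (min_le_left _ _) hnκ.le
      _ = c₁ * (1 / 9 * (n : ℝ) ^ κ) := by ring
      _ ≤ c₁ * (Q.card : ℝ) ^ κ :=
          mul_le_mul_of_nonneg_left (rpow_third hκ0.le hκ.le cn h3') hc₁.le
      _ ≤ _ := h4
      _ ≤ _ := max_mono (Finset.filter_subset _ _)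

theorem reduction (κ : ℝ) (hκ : κ < 2) :
    SumProduct κ (fun _ => True) ↔
      ∃ b : ℝ, 0 < b ∧ ∀ M : ℕ, 1 ≤ M → SumProduct κ (Superpoly b M) := by
  constructor
  · rintro ⟨c, hc, h⟩
    exact ⟨1, one_pos, fun M _ => ⟨c, hc, fun A hA _ => h A hA trivial⟩⟩
  · rintro ⟨b, hb, h⟩
    rcases le_or_gt κ 0 with h0 | h0
    · refine ⟨1, one_pos, fun A hA _ => ?_⟩
      rw [one_mul]
      refine le_trans ?_ (one_le_max A hA)
      apply Real.rpow_le_one_of_one_le_of_nonpos _ h0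
      exact_mod_cast hA.card_pos
    · exact reduce_all κ h0 hκ (reduce_pos κ h0 hκ b hb h)

end Pool.Agent.H166.SPD
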