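import Pool.Agent.H166.SPD.Reduce

/-!
The subsets of the sets with few coincidences.
-/

set_option autoImplicit false

namespace Pool.Agent.H166.SPD

open Finset
open scoped Pointwise

theorem sq_of_energy {x y z : ℝ} {k : ℕ} (hx : 0 < x) (h : (x ^ k) ^ 2 ≤ y * (z * x) ^ k) :
    x ^ k ≤ z ^ k * y := by
  have h1 : x ^ k * x ^ k ≤ (z ^ k * y) * x ^ k := by
    calc x ^ k * x ^ k = (x ^ k) ^ 2 := by ring
      _ ≤ y * (z * x) ^ k := h
      _ = _ := by rw [mul_pow]; ring
  exact le_of_mul_le_mul_right h1 (by positivity)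

theorem MulW_subset (k : ℕ) (C S : Finset ℤ) (hS : S ⊆ C) :
    MulW k S (fun _ => 1) ≤ MulW k C fun a => if a ∈ S then 1 else 0 := by
  classical
  unfold MulW
  have hnn : ∀ x : Fin k → ℤ, 0 ≤ ∏ i, (if x i ∈ S then (1 : ℝ) else 0) := fun x =>
    Finset.prod_nonneg fun i _ => by split_ifs <;> norm_num
  have hone : ∀ x : Fin k → ℤ, x ∈ (Fintype.piFinset fun _ : Fin k => S) →
      ∏ i, (if x i ∈ S then (1 : ℝ) else 0) = 1 := by
    intro x hx
    rw [Fintype.mem_piFinset] at hx
    exact Finset.prod_eq_one fun i _ => by rw [if_pos (hx i)]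
  have hsub : (Fintype.piFinset fun _ : Fin k => S) ⊆ Fintype.piFinset fun _ : Fin k => C :=
    Fintype.piFinset_subset _ _ fun _ => hS
  have hterm : ∀ x y : Fin k → ℤ, 0 ≤ (if ∏ i, x i = ∏ i, y i then
      (∏ i, (if x i ∈ S then (1 : ℝ) else 0)) * ∏ i, (if y i ∈ S then (1 : ℝ) else 0) else 0) := by
    intro x y
    split_ifs
    · exact mul_nonneg (hnn x) (hnn y)
    · exact le_rfl
  refine le_trans ?_ (Finset.sum_le_sum_of_subset_of_nonneg hsub
    fun x _ _ => Finset.sum_nonneg fun y _ => hterm x y)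
  refine Finset.sum_le_sum fun x hx => ?_
  refine le_trans ?_ (Finset.sum_le_sum_of_subset_of_nonneg hsub fun y _ _ => hterm x y)
  refine Finset.sum_le_sum fun y hy => ?_
  rw [hone x hx, hone y hy]
  simp

theorem AddW_subset (k : ℕ) (C S : Finset ℤ) (hS : S ⊆ C) :
    AddW k S (fun _ => 1) ≤ AddW k C fun a => if a ∈ S then 1 else 0 := by
  classical
  unfold AddW
  have hnn : ∀ x : Fin k → ℤ, 0 ≤ ∏ i, (if x i ∈ S then (1 : ℝ) else 0) := fun x =>
    Finset.prod_nonneg fun i _ => by split_ifs <;> norm_num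
  have hone : ∀ x : Fin k → ℤ, x ∈ (Fintype.piFinset fun _ : Fin k => S) →
      ∏ i, (if x i ∈ S then (1 : ℝ) else 0) = 1 := by
    intro x hx
    rw [Fintype.mem_piFinset] at hx
    exact Finset.prod_eq_one fun i _ => by rw [if_pos (hx i)]
  have hsub : (Fintype.piFinset fun _ : Fin k => S) ⊆ Fintype.piFinset fun _ : Fin k => C :=
    Fintype.piFinset_subset _ _ fun _ => hS
  have hterm : ∀ x y : Fin k → ℤ, 0 ≤ (if ∑ i, x i = ∑ i, y i then
      (∏ i, (if x i ∈ S then (1 : ℝ) else 0)) * ∏ i, (if y i ∈ S then (1 : ℝ) else 0) else 0) := by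
    intro x y
    split_ifs
    · exact mul_nonneg (hnn x) (hnn y)
    · exact le_rfl
  refine le_trans ?_ (Finset.sum_le_sum_of_subset_of_nonneg hsub
    fun x _ _ => Finset.sum_nonneg fun y _ => hterm x y)
  refine Finset.sum_le_sum fun x hx => ?_
  refine le_trans ?_ (Finset.sum_le_sum_of_subset_of_nonneg hsub fun y _ _ => hterm x y)
  refine Finset.sum_le_sum fun y hy => ?_
  rw [hone x hx, hone y hy]
  simp

theorem sum_indicator (C S : Finset ℤ) (hS : S ⊆ C) :
    ∑ a ∈ C, (if a ∈ S then (1 : ℝ) else 0) ^ 2 = S.card := by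
  have h1 : ∀ a ∈ C, (if a ∈ S then (1 : ℝ) else 0) ^ 2 = if a ∈ S then (1 : ℝ) else 0 := by
    intro a _
    split_ifs <;> norm_num
  rw [Finset.sum_congr rfl h1, ← Finset.sum_filter, Finset.sum_const, nsmul_eq_mul, mul_one]
  congr 2
  ext a
  simp only [mem_filter]
  exact ⟨fun h => h.2, fun h => ⟨hS h, h⟩⟩

/-- a subset of a set with few multiplicative coincidences has many products -/
theorem products_of_subset (k : ℕ) (hk : 1 ≤ k) (C : Finset ℤ) (z : ℝ) (hz : 0 ≤ z)
    (h : ∀ c : ℤ → ℝ, (∀ a, 0 ≤ c a) → MulW k C c ≤ (z * ∑ a ∈ C, c a ^ 2) ^ k) (S : Finset ℤ)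
    (hS : S ⊆ C) :
    (S.card : ℝ) ^ k ≤
      z ^ k * (((Fintype.piFinset fun _ : Fin k => S).image fun f => ∏ i, f i).card : ℝ) := by
  rcases S.eq_empty_or_nonempty with h0 | h0
  · rw [h0]
    have : k ≠ 0 := by omega
    simp only [Finset.card_empty, Nat.cast_zero, ne_eq, this, not_false_eq_true, zero_pow]
    positivity
  have hS0 : (0 : ℝ) < S.card := by exact_mod_cast h0.card_pos
  apply sq_of_energy hS0
  have h1 := cs_fiber (Fintype.piFinset fun _ : Fin k => S) (fun x => ∏ i, x i)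
    ((Fintype.piFinset fun _ : Fin k => S).image fun f => ∏ i, f i)
    (fun x hx => mem_image_of_mem _ hx)
  rw [Fintype.card_piFinset] at h1
  simp only [Finset.prod_const, Finset.card_univ, Fintype.card_fin] at h1
  have h2 := (MulW_subset k C S hS).trans
    (h (fun a => if a ∈ S then 1 else 0) (fun a => by split_ifs <;> norm_num))
  rw [sum_indicator C S hS] at h2
  have h3 : MulW k S (fun _ => 1) = ∑ x ∈ Fintype.piFinset (fun _ : Fin k => S),
      ∑ y ∈ Fintype.piFinset (fun _ : Fin k => S),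
        (if ∏ i, x i = ∏ i, y i then (1 : ℝ) else 0) := by
    unfold MulW
    simp
  rw [← h3] at h1
  push_cast at h1
  exact h1.trans (mul_le_mul_of_nonneg_left h2 (Nat.cast_nonneg _))

/-- a subset of a set with few additive coincidences has many sums -/
theorem sums_of_subset (k : ℕ) (hk : 1 ≤ k) (C : Finset ℤ) (z : ℝ) (hz : 0 ≤ z)
    (h : ∀ c : ℤ → ℝ, (∀ a, 0 ≤ c a) → AddW k C c ≤ (z * ∑ a ∈ C, c a ^ 2) ^ k) (S : Finset ℤ)
    (hS : S ⊆ C) :
    (S.card : ℝ) ^ k ≤
      z ^ k * (((Fintype.piFinset fun _ : Fin k => S).image fun f => ∑ i, f i).card : ℝ) := by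
  rcases S.eq_empty_or_nonempty with h0 | h0
  · rw [h0]
    have : k ≠ 0 := by omega
    simp only [Finset.card_empty, Nat.cast_zero, ne_eq, this, not_false_eq_true, zero_pow]
    positivity
  have hS0 : (0 : ℝ) < S.card := by exact_mod_cast h0.card_pos
  apply sq_of_energy hS0
  have h1 := cs_fiber (Fintype.piFinset fun _ : Fin k => S) (fun x => ∑ i, x i)
    ((Fintype.piFinset fun _ : Fin k => S).image fun f => ∑ i, f i)
    (fun x hx => mem_image_of_mem _ hx)
  rw [Fintype.card_piFinset] at h1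
  simp only [Finset.prod_const, Finset.card_univ, Fintype.card_fin] at h1
  have h2 := (AddW_subset k C S hS).trans
    (h (fun a => if a ∈ S then 1 else 0) (fun a => by split_ifs <;> norm_num))
  rw [sum_indicator C S hS] at h2
  have h3 : AddW k S (fun _ => 1) = ∑ x ∈ Fintype.piFinset (fun _ : Fin k => S),
      ∑ y ∈ Fintype.piFinset (fun _ : Fin k => S),
        (if ∑ i, x i = ∑ i, y i then (1 : ℝ) else 0) := by
    unfold AddW
    simp
  rw [← h3] at h1
  push_cast at h1
  exact h1.trans (mul_le_mul_of_nonneg_left h2 (Nat.cast_nonneg _))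

end Pool.Agent.H166.SPD
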