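import Pool.Agent.H166.SPD.Iter

/-!
The nonzero integers in the multiplicative group of the rational numbers, and the auxiliary set of a
piece as a set of positive integers.
-/

set_option autoImplicit false

namespace Pool.Agent.H166.SPD

open Finset
open scoped Pointwise

/-- a nonzero rational number as an element of the multiplicative group, written additively -/
noncomputable def uq (q : ℚ) : Additive ℚˣ :=
  if h : q = 0 then 0 else Additive.ofMul (Units.mk0 q h)

theorem uq_inj {a b : ℚ} (ha : a ≠ 0) (hb : b ≠ 0) (h : uq a = uq b) : a = b := by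
  unfold uq at h
  rw [dif_neg ha, dif_neg hb] at h
  have h1 : Units.mk0 a ha = Units.mk0 b hb := Additive.ofMul.injective h
  have h2 := congrArg Units.val h1
  simpa using h2

theorem uq_mul {a b : ℚ} (ha : a ≠ 0) (hb : b ≠ 0) : uq (a * b) = uq a + uq b := by
  unfold uq
  rw [dif_neg ha, dif_neg hb, dif_neg (mul_ne_zero ha hb), ← ofMul_mul]
  congr 1
  ext
  simp

theorem uq_one : uq 1 = 0 := by
  unfold uq
  rw [dif_neg one_ne_zero]
  have : Units.mk0 (1 : ℚ) one_ne_zero = 1 := by ext; simp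
  rw [this, ofMul_one]

theorem uq_prod {ι : Type*} (s : Finset ι) (f : ι → ℚ) (h : ∀ i ∈ s, f i ≠ 0) :
    uq (∏ i ∈ s, f i) = ∑ i ∈ s, uq (f i) := by
  classical
  induction s using Finset.induction_on with
  | empty => simp [uq_one]
  | insert i s hi ih =>
    rw [Finset.prod_insert hi, Finset.sum_insert hi,
      uq_mul (h i (Finset.mem_insert_self i s))
        (Finset.prod_ne_zero_iff.2 fun j hj => h j (Finset.mem_insert_of_mem hj)),
      ih fun j hj => h j (Finset.mem_insert_of_mem hj)]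

/-- the rational number of an element of the multiplicative group -/
noncomputable def qu (g : Additive ℚˣ) : ℚ := ((Additive.toMul g : ℚˣ) : ℚ)

theorem qu_ne (g : Additive ℚˣ) : qu g ≠ 0 := Units.ne_zero _

theorem uq_qu (g : Additive ℚˣ) : uq (qu g) = g := by
  unfold uq
  rw [dif_neg (qu_ne g)]
  have : Units.mk0 (qu g) (qu_ne g) = Additive.toMul g := by
    ext
    simp [qu]
  rw [this]
  rfl

/-- an integer as an element of the multiplicative group of the rational numbers -/
noncomputable def uz (z : ℤ) : Additive ℚˣ := uq (z : ℚ)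

theorem uz_inj {a b : ℤ} (ha : a ≠ 0) (hb : b ≠ 0) (h : uz a = uz b) : a = b := by
  have := uq_inj (by exact_mod_cast ha) (by exact_mod_cast hb) h
  exact_mod_cast this

theorem uz_mul {a b : ℤ} (ha : a ≠ 0) (hb : b ≠ 0) : uz (a * b) = uz a + uz b := by
  unfold uz
  push_cast
  exact uq_mul (by exact_mod_cast ha) (by exact_mod_cast hb)

theorem uz_prod {ι : Type*} (s : Finset ι) (f : ι → ℤ) (h : ∀ i ∈ s, f i ≠ 0) :
    uz (∏ i ∈ s, f i) = ∑ i ∈ s, uz (f i) := by
  unfold uz
  push_cast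
  exact uq_prod s _ fun i hi => by exact_mod_cast h i hi

/-- products agree if and only if the sums in the multiplicative group agree -/
theorem uz_prod_iff {m : ℕ} (x y : Fin m → ℤ) (hx : ∀ i, x i ≠ 0) (hy : ∀ i, y i ≠ 0) :
    ∏ i, x i = ∏ i, y i ↔ ∑ i, uz (x i) = ∑ i, uz (y i) := by
  rw [← uz_prod _ _ fun i _ => hx i, ← uz_prod _ _ fun i _ => hy i]
  constructor
  · intro h; rw [h]
  · intro h
    exact uz_inj (Finset.prod_ne_zero_iff.2 fun i _ => hx i)
      (Finset.prod_ne_zero_iff.2 fun i _ => hy i) h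

/-- The auxiliary set of a piece can be replaced by a set of positive integers. -/
theorem exists_pos (P : Finset (Additive ℚˣ)) (hP : P.Nonempty) :
    ∃ (B : Finset ℤ) (t : Additive ℚˣ), B.Nonempty ∧ (∀ b ∈ B, 0 < b) ∧ P.card ≤ 2 * B.card ∧
      ∀ b ∈ B, uz b - t ∈ P := by
  classical
  -- a common denominator
  obtain ⟨N, hN, hden⟩ : ∃ N : ℤ, 0 < N ∧ ∀ p ∈ P, ∃ z : ℤ, (N : ℚ) * qu p = z := by
    refine ⟨∏ p ∈ P, ((qu p).den : ℤ), Finset.prod_pos fun p _ => by exact_mod_cast (qu p).den_pos,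
      ?_⟩
    intro p hp
    obtain ⟨w, hw⟩ : ((qu p).den : ℤ) ∣ ∏ p ∈ P, ((qu p).den : ℤ) := Finset.dvd_prod_of_mem _ hp
    refine ⟨w * (qu p).num, ?_⟩
    rw [hw]
    push_cast
    have h1 : ((qu p).den : ℚ) * qu p = (qu p).num := Rat.den_mul_eq_num _
    calc ((qu p).den : ℚ) * w * qu p = w * ((qu p).den * qu p) := by ring
      _ = _ := by rw [h1]
  choose! z hz using hden
  have hNq : (0 : ℚ) < N := by exact_mod_cast hN
  -- a sign class
  obtain ⟨σ, hσ, Q, hQP, hQc, hQs⟩ : ∃ σ : ℤ, (σ = 1 ∨ σ = -1) ∧ ∃ Q ⊆ P, P.card ≤ 2 * Q.card ∧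
      ∀ p ∈ Q, 0 < σ * z p := by
    set Q1 := P.filter fun p => 0 < qu p with hQ1
    set Q2 := P.filter fun p => ¬ 0 < qu p with hQ2
    have hc : Q1.card + Q2.card = P.card := Finset.card_filter_add_card_filter_not _
    by_cases h : P.card ≤ 2 * Q1.card
    · refine ⟨1, Or.inl rfl, Q1, Finset.filter_subset _ _, h, ?_⟩
      intro p hp
      obtain ⟨h1, h2⟩ := mem_filter.1 hp
      have h3 : (0 : ℚ) < z p := by
        rw [← hz p h1]
        positivity
      rw [one_mul]
      exact_mod_cast h3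
    · refine ⟨-1, Or.inr rfl, Q2, Finset.filter_subset _ _, by omega, ?_⟩
      intro p hp
      obtain ⟨h1, h2⟩ := mem_filter.1 hp
      have h4 : qu p < 0 := lt_of_le_of_ne (not_lt.1 h2) (qu_ne p)
      have h3 : (z p : ℚ) < 0 := by
        rw [← hz p h1]
        exact mul_neg_of_pos_of_neg hNq h4
      have h5 : z p < 0 := by exact_mod_cast h3
      linarith
  have hσ0 : σ ≠ 0 := by rcases hσ with h | h <;> rw [h] <;> norm_num
  have hN0 : N ≠ 0 := hN.ne'
  have hzu : ∀ p ∈ P, uz (z p) = uz N + p := by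
    intro p hp
    unfold uz
    rw [← hz p hp, uq_mul hNq.ne' (qu_ne p), uq_qu]
  have hz0 : ∀ p ∈ P, z p ≠ 0 := by
    intro p hp h
    have h1 := hz p hp
    rw [h] at h1
    have h2 : (N : ℚ) * qu p ≠ 0 := mul_ne_zero hNq.ne' (qu_ne p)
    apply h2
    rw [h1]
    simp
  have hbu : ∀ p ∈ P, uz (σ * z p) = uz σ + uz N + p := by
    intro p hp
    rw [uz_mul hσ0 (hz0 p hp), hzu p hp]
    abel
  have hinj : Set.InjOn (fun p => σ * z p) Q := by
    intro p hp q hq h
    have h1 := hbu p (hQP hp)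
    have h2 := hbu q (hQP hq)
    have h3 : σ * z p = σ * z q := h
    rw [h3, h2] at h1
    exact (add_left_cancel h1).symm
  refine ⟨Q.image fun p => σ * z p, uz σ + uz N, ?_, ?_, ?_, ?_⟩
  · rw [← Finset.card_pos, Finset.card_image_of_injOn hinj]
    have := hP.card_pos
    omega
  · intro b hb
    obtain ⟨p, hp, rfl⟩ := mem_image.1 hb
    exact hQs p hp
  · rw [Finset.card_image_of_injOn hinj]
    exact hQc
  · intro b hb
    obtain ⟨p, hp, rfl⟩ := mem_image.1 hb
    show uz (σ * z p) - (uz σ + uz N) ∈ P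
    rw [hbu p (hQP hp), add_sub_cancel_left]
    exact hQP hp

end Pool.Agent.H166.SPD
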